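import Pool.Agent.UB.Defs
import Pool.Agent.TS.Stmts
import Pool.Agent.MT.Stmts
import Pool.Agent.MTA.Stmts

/-!
Finite type invariants detect the unknot among the arborescent knots (MP_31fd3b_gt, Theorem U):
the half-spin part, statements of the modules. See PAPER.md in this folder.
-/

open Polynomial
open scoped BigOperators Real Matrix

namespace Pool.Agent.UB

open Pool.Agent.LibH11.Sliced Pool.Agent.MTR Pool.Agent.MT Pool.Agent.MTA Pool.Agent.UA
open Pool.Agent.TB hiding vec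

/-! ### A. The value of the functor on trees -/

/-- ACT: the value of the closure of a tree. -/
def ACT_Stmt : Prop :=
  ∀ (A S : Type) [CommRing A] [Fintype S] [DecidableEq S] (T : TData A S) (s : S) (t : Tr),
    T.J s (cl t.dg) = clo T (mt T t) s

/-- PRD: products, and the data of the functor as a product of labels and orientations. -/
def PRD_Stmt : Prop :=
  (∀ (A S S' : Type) [CommRing A] [Fintype S] [DecidableEq S] [Fintype S'] [DecidableEq S']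
    (T : TData A S) (T' : TData A S') (s : S) (s' : S') (t : Tr),
    clo (tprod T T') (mt (tprod T T') t) (s, s') = clo T (mt T t) s * clo T' (mt T' t) s') ∧
  ∀ (A : Type) [CommRing A] (Q : QP A) (r : ℕ), tdata Q r = tprod (ld Q r) (od (tht Q r))

/-- ORI: the orientations of the closure of a knotted tree. -/
def ORI_Stmt : Prop :=
  ∀ (A : Type) [CommRing A] (u : Aˣ) (t : Tr), Odd (vec t).1 →
    ∃ m : ℤ, clo (od u) (mt (od u) t) true = ((u ^ m : Aˣ) : A)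

/-- PAR: the total parity. -/
def PAR_Stmt : Prop :=
  ∀ (A : Type) [CommRing A] (Q : QP A) (r : ℕ), Q.Gen r →
    (∀ p c : Lb r × Lb r,
      (aeval (Im Q r) (Q.interp r fun m => if Even m then (1 : A) else -1)) p c =
        if p = c then (if p.1.par = p.2.par then 1 else -1) else 0) ∧
    (IsDomain A → CharZero A → ∀ (P : A[X]) (p c : Lb r × Lb r),
      (aeval (Im Q r) (trc Q r P)) p c =
        if p.1.par = p.2.par then (aeval (Im Q r) P) p c else 0)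

/-- HTL: half twists on the labels. -/
def HTL_Stmt : Prop :=
  ∀ (A : Type) [CommRing A] [IsDomain A] [CharZero A] (Q : QP A) (r : ℕ), Q.Gen r → ∀ e : ℤ,
    mt (ld Q r) (.pw e) = rs r (aeval (Im Q r) (FPe Q r e)) ∧ Okp Q r (FPe Q r e)

/-- ROTL: rotation on the labels. -/
def ROTL_Stmt : Prop :=
  ∀ (A : Type) [CommRing A] [IsDomain A] [CharZero A] (Q : QP A) (r : ℕ), Even r → Q.Gen r →
    Q.Reg r → ∀ P : A[X], Okp Q r P →
      rot (ld Q r) (rs r (aeval (Im Q r) P)) = rs r (aeval (Im Q r) (rotP Q r P)) ∧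
        Okp Q r (rotP Q r P)

/-- LABL: the value of a tree on the labels. -/
def LABL_Stmt : Prop :=
  ∀ (A : Type) [CommRing A] [IsDomain A] [CharZero A] (Q : QP A) (r : ℕ), Even r → Q.Gen r →
    Q.Reg r → ∀ t : Tr, mt (ld Q r) t = rs r (aeval (Im Q r) (tp Q r t)) ∧ Okp Q r (tp Q r t) ∧
      clo (ld Q r) (mt (ld Q r) t) ⟨Lb.zero r, Lb.par_zero r⟩ =
        dlt Q r * cval Q r (tp Q r t)

/-- JLS: the value of the functor on a connected sum of closures of trees. -/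
def JLS_Stmt : Prop :=
  ∀ (A : Type) [CommRing A] [IsDomain A] [CharZero A] (Q : QP A) (r : ℕ), Even r → Q.Gen r →
    Q.Reg r → ∀ Ts : List Tr, (∀ t ∈ Ts, Odd (vec t).1) →
      ∃ m : ℤ, (tdata Q r).J (s0 r) (cls Ts) =
        ((tht Q r ^ m : Aˣ) : A) * (Ts.map fun t => dlt Q r * cval Q r (tp Q r t)).prod

/-- NATU: base change. -/
def NATU_Stmt : Prop :=
  ∀ (A B : Type) [CommRing A] [CommRing B] (φ : A →+* B) (Q : QP A) (r : ℕ), Q.Gen r →
    (∀ t : Tr, φ (dlt Q r * cval Q r (tp Q r t)) =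
      dlt (Q.map φ) r * cval (Q.map φ) r (tp (Q.map φ) r t)) ∧
    ∀ m : ℤ, φ ((tht Q r ^ m : Aˣ) : A) = ((tht (Q.map φ) r ^ m : Bˣ) : B)

/-- TRF: transfer of an equality of values from the power series to the dual numbers. -/
def TRF_Stmt : Prop :=
  ∀ (r : ℕ) (s0 : ℂˣ), Even r → (QC s0).Gen r →
    (∀ (m : ℤ) (Ts Ts' : List Tr),
      ((tht QPS r ^ m : (PowerSeries ℂ)ˣ) : PowerSeries ℂ) *
          (Ts.map fun t => dlt QPS r * cval QPS r (tp QPS r t)).prod =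
        (Ts'.map fun t => dlt QPS r * cval QPS r (tp QPS r t)).prod →
      ((tht (QD s0) r ^ m : (DualNumber ℂ)ˣ) : DualNumber ℂ) *
          (Ts.map fun t => dlt (QD s0) r * cval (QD s0) r (tp (QD s0) r t)).prod =
        (Ts'.map fun t => dlt (QD s0) r * cval (QD s0) r (tp (QD s0) r t)).prod) ∧
    dlt (QD s0) r ^ 2 * cval (QD s0) r ((QD s0).basis r r) = 1

/-- UNK: the closure of one half twist is the unknot. -/
def UNK_Stmt : Prop :=
  ∀ (A : Type) [CommRing A] [IsDomain A] (Q : QP A) (r : ℕ), Even r → Q.Gen r → Q.Reg r →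
    (tdata Q r).J (s0 r) (cl (Tr.pw 1).dg) = 1

/-! ### B. The model at a root of unity -/

/-- ROTM: rotation in the model. -/
def ROTM_Stmt : Prop :=
  ∀ (n r : ℕ) [NeZero n] (ι : ℤ), n = 2 * r → Even r → IsCoprime ι (2 * n : ℤ) →
    ∀ (P : (DualNumber ℂ)[X]) (c : DualNumber ℂ) (f : Fn n × Fn n),
      (∀ u : ZMod (2 * n), P.eval ((QD (sz n ι)).lam (r - cc n u)) = c * du n f u) →
      ∀ u : ZMod (2 * n),
        (wop (QD (sz n ι)).two ((QD (sz n ι)).lam r) ((QD (sz n ι)).lam (r - 1)) false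
          [P, (QD (sz n ι)).basis r r]).eval ((QD (sz n ι)).lam (r - cc n u)) =
        c * (1 - TrivSqZeroExt.inr (Th n ι 1 0)) * du n (rotf n ι f) u

/-- STU: supports and stabilisers of the states. -/
def STU_Stmt : Prop :=
  ∀ (n : ℕ) [NeZero n] (ι : ℤ), IsCoprime ι (2 * n : ℤ) → ∀ t : Tr,
    Evs n (sta n ι t).1 ∧ Evs n (sta n ι t).2 ∧ Stab n ι (vec t) (sta n ι t).1

/-- TMU: the polynomials of the trees in the model. -/
def TMU_Stmt : Prop :=
  ∀ (n r : ℕ) [NeZero n] (ι : ℤ), n = 2 * r → Even r → IsCoprime ι (2 * n : ℤ) →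
    ∀ (t : Tr) (u : ZMod (2 * n)),
      (tp (QD (sz n ι)) r t).eval ((QD (sz n ι)).lam (r - cc n u)) =
        (dlt (QD (sz n ι)) r * (1 - TrivSqZeroExt.inr (Th n ι 1 0))) ^ nc t * du n (sta n ι t) u

/-- CVU: the values of the trees in the model. -/
def CVU_Stmt : Prop :=
  ∀ (n r : ℕ) [NeZero n] (ι : ℤ), n = 2 * r → Even r → IsCoprime ι (2 * n : ℤ) → ∀ t : Tr,
    cval (QD (sz n ι)) r (tp (QD (sz n ι)) r t) = TrivSqZeroExt.inl (1 / (2 * n : ℂ)) *
      (dlt (QD (sz n ι)) r * (1 - TrivSqZeroExt.inr (Th n ι 1 0))) ^ nc t *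
        (TrivSqZeroExt.inl (Va n ι t).1 + TrivSqZeroExt.inr (Va n ι t).2)

/-- INTU: equality of the finite type invariants with those of the unknot. -/
def INTU_Stmt : Prop :=
  ∀ (Ts : List Tr) (h : IsLongKnot (cls Ts)) (h0 : IsLongKnot []), (∀ t ∈ Ts, Odd (vec t).1) →
    (∀ v : Knot → ℂ, IsFiniteType v → v (ofDiag (cls Ts) h) = v (ofDiag [] h0)) →
    ∀ s : ℕ, 2 ≤ s → ∃ K : ℂ, ∀ ι : ℤ, Odd ι →
      (Va (2 ^ s) ι (.pw 1)).1 ≠ 0 ∧ (∀ t ∈ Ts, (Va (2 ^ s) ι t).1 ≠ 0) ∧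
      (Ts.map fun t => (Va (2 ^ s) ι t).2 / (Va (2 ^ s) ι t).1 -
        (Va (2 ^ s) ι (.pw 1)).2 / (Va (2 ^ s) ι (.pw 1)).1).sum = K

/-! ### C. The logarithmic derivative -/

/-- FHT: the Fourier transform. -/
def FHT_Stmt : Prop :=
  ∀ (n : ℕ) [NeZero n] (ι : ℤ), IsCoprime ι (2 * n : ℤ) →
    (∀ (a b : ℤ) (f : Fn n), Tt n ι a b (Fh n ι f) = Fh n ι (Tt n ι b (-a) f)) ∧
    (∀ (v : ℤ × ℤ) (f : Fn n), Stab n ι v f → Stab n ι (rv v) (Fh n ι f)) ∧
    (∀ f g : Fn n, Evs n f → Evs n g → pr n f (Fh n ι g) = pr n (Fh n ι f) g)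

/-- THX: the operator `Θ` between stable functions. -/
def THX_Stmt : Prop :=
  ∀ (n : ℕ) [NeZero n] (ι : ℤ), 1 < n → IsCoprime ι (2 * n : ℤ) →
    ∀ (L V : ℤ × ℤ) (Φ ψ : Fn n), Stab n ι L Φ → Stab n ι V ψ →
    ∀ κ : ZMod n, κ * ι * ((-(addv L V).1 : ℤ) : ZMod n) = 1 →
      pr n Φ (Th n ι ψ) = -(1 / 4) *
        CC n (cx L) V (1, 0) (0, 1) (fun v => ZMod.stdAddChar (κ * v)) * pr n Φ ψ ∧
      pr n Φ (Th n ι 1 * ψ) = -(1 / 4) *
        CC n (cx (addv L V)) (0, 1) (1, 0) (0, 1) (fun v => ZMod.stdAddChar (κ * v)) * pr n Φ ψ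

/-- DERU: the derivative of a tree in a context. -/
def DERU_Stmt : Prop :=
  ∀ (n : ℕ) [NeZero n] (ι : ℤ), 1 < n → IsCoprime ι (2 * n : ℤ) →
    ∀ (t : Tr) (L : ℤ × ℤ) (Φ : Fn n), Stab n ι L Φ →
    ∀ κ : ZMod n, κ * ι * ((-(addv L (vec t)).1 : ℤ) : ZMod n) = 1 →
      pr n Φ (sta n ι t).2 = pr n Φ (sta n ι t).1 *
        (-((n : ℂ) ^ 2 - 1) / 12 * (exs t : ℂ) +
          TU n (fun v => ZMod.stdAddChar (κ * v)) L t)

/-- LGUV: the logarithmic derivative of the value of a tree. -/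
def LGUV_Stmt : Prop :=
  ∀ (n : ℕ) [NeZero n] (ι : ℤ), 1 < n → IsCoprime ι (2 * n : ℤ) →
    ∀ (t : Tr) (κ : ZMod n), κ * ι * ((-(vec t).1 : ℤ) : ZMod n) = 1 →
      (Va n ι t).2 = (Va n ι t).1 * LU n t κ

/-! ### D. The limit and the residues -/

/-- CFIN: the equality of the logarithmic derivatives with those of the unknot, up to a constant,
forces a weight `±1` at every vertex. -/
def CFIN_Stmt : Prop :=
  ∀ Ts : List Tr, (∀ t ∈ Ts, |(vec t).1| = 1) →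
    (∀ s : ℕ, 2 ≤ s → ∃ K : ℂ, ∀ κ : ZMod (2 ^ s), IsUnit κ →
      (Ts.map fun t => LU (2 ^ s) t (((-(vec t).1 : ℤ) : ZMod (2 ^ s)) * κ) -
        LU (2 ^ s) (.pw 1) κ).sum = K) →
    ∀ t ∈ Ts, OK (0, 1) t

/-- HS: the half-spin part of Theorem U. -/
def HS_Stmt : Prop :=
  ∀ (Ts : List Tr) (h : IsLongKnot (cls Ts)) (h0 : IsLongKnot []), (∀ t ∈ Ts, |(vec t).1| = 1) →
    (∀ v : Knot → ℂ, IsFiniteType v → v (ofDiag (cls Ts) h) = v (ofDiag [] h0)) →
    ∀ t ∈ Ts, OK (0, 1) t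

end Pool.Agent.UB
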