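import Pool.Agent.UB.Stmts
import Pool.Agent.Mont.NFT

/-!
JLS: the value of the functor on a connected sum of closures of trees.
-/

open Polynomial
open scoped BigOperators Real Matrix

namespace Pool.Agent.UB

open Pool.Agent.LibH11.Sliced Pool.Agent.MTR Pool.Agent.MT Pool.Agent.MTA Pool.Agent.UA
open Pool.Agent.TwoBr Pool.Agent.Mont
open Pool.Agent.TB hiding vec

namespace Jls

theorem cnt_rotD {t : Diag} (h : cnt 2 t = some 2) : cnt 2 (rotD t) = some 2 := by
  have h1 : cnt 3 (sh 1 t) = some 3 := by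
    have := cnt_sh 1 t 2
    rw [h] at this
    exact this
  have h2 : cnt 4 (sh 1 t) = some 4 := cnt_widen 1 (sh 1 t) 3 3 h1
  have h3 : (rotD t : Diag) = [((.cup : Kind), 0)] ++ (sh 1 t ++ [(.cap, 2)]) := rfl
  rw [h3, cnt_app (show cnt 2 [((.cup : Kind), 0)] = some 4 from rfl), cnt_app h2]
  rfl

theorem cnt_dg : ∀ t : Tr, cnt 2 t.dg = some 2 := by
  intro t
  induction t with
  | pw e => exact cnt_ht e
  | cons a b iha ihb =>
    show cnt 2 (rotD a.dg ++ b.dg) = some 2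
    rw [cnt_app (cnt_rotD iha), ihb]

theorem cnt_cl {t : Diag} (h : cnt 2 t = some 2) : cnt 1 (cl t) = some 1 := by
  have h2 : cnt 3 t = some 3 := cnt_widen 1 t 2 2 h
  have h3 : (cl t : Diag) = [((.cup : Kind), 1)] ++ (t ++ [(.cap, 1)]) := rfl
  rw [h3, cnt_app (show cnt 1 [((.cup : Kind), 1)] = some 3 from rfl), cnt_app h2]
  rfl

theorem cnt_cls : ∀ Ts : List Tr, cnt 1 (cls Ts) = some 1 := by
  intro Ts
  induction Ts with
  | nil => rfl
  | cons t Ts ih =>
    show cnt 1 (cl t.dg ++ cls Ts) = some 1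
    rw [cnt_app (cnt_cl (cnt_dg t)), ih]

end Jls

open Jls in
theorem t_JLS (h1 : ACT_Stmt) (h2 : PRD_Stmt) (h3 : ORI_Stmt) (h4 : LABL_Stmt)
    (h5 : TS.MUL_Stmt) : JLS_Stmt := by
  intro A _ _ _ Q r he hg hr Ts
  induction Ts with
  | nil =>
    intro _
    refine ⟨0, ?_⟩
    have h6 : (tdata Q r).J (s0 r) (cls []) = 1 := by
      show (if ([s0 r] : List (SL r)) = [s0 r] then (1 : A) else 0) = 1
      rw [if_pos rfl]
    rw [h6]
    simp
  | cons t Ts ih =>
    intro hT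
    obtain ⟨m, hm⟩ := ih fun t' ht' => hT t' (List.mem_cons_of_mem _ ht')
    obtain ⟨m', hm'⟩ := h3 A (tht Q r) t (hT t (List.mem_cons_self))
    refine ⟨m' + m, ?_⟩
    have e1 : (tdata Q r).J (s0 r) (cls (t :: Ts)) =
        (tdata Q r).J (s0 r) (cl t.dg) * (tdata Q r).J (s0 r) (cls Ts) :=
      h5 A Q r (cl t.dg) (cls Ts) (cnt_cl (cnt_dg t)) (cnt_cls Ts)
    have e2 : (tdata Q r).J (s0 r) (cl t.dg) =
        ((tht Q r ^ m' : Aˣ) : A) * (dlt Q r * cval Q r (tp Q r t)) := by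
      rw [h1 A (SL r) (tdata Q r) (s0 r) t, h2.2 A Q r]
      have e3 := h2.1 A (Ev r) Bool (ld Q r) (od (tht Q r)) ⟨Lb.zero r, Lb.par_zero r⟩ true t
      rw [hm', (h4 A Q r he hg hr t).2.2] at e3
      rw [mul_comm]
      exact e3
    rw [e1, e2, hm, List.map_cons, List.prod_cons, zpow_add, Units.val_mul]
    ring

end Pool.Agent.UB
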