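import Pool.Agent.UB.Stmts
import Pool.Agent.MT.Tma

/-!
# The Fourier transform, supports and stabilisers of the states
-/

set_option autoImplicit false

open Polynomial
open scoped BigOperators Real

namespace Pool.Agent.UB

open Pool.Agent.LibH11.Sliced Pool.Agent.MTR Pool.Agent.MT Pool.Agent.MTA Pool.Agent.UA
open Pool.Agent.TB hiding vec

namespace Stu

variable {n : ℕ} [NeZero n] {ι : ℤ}

lemma Fh_apply (f : Fn n) (u : ZMod (2 * n)) :
    Fh n ι f u = (1 / (2 * n : ℂ)) * ∑ k, f k * zt n ι (k * u) := rfl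

lemma Tt_apply (a b : ℤ) (f : Fn n) (u : ZMod (2 * n)) :
    Tt n ι a b f u = zt n ι (2 * a * b + 2 * a * u) * f (u + 2 * b) := rfl

lemma Tt_Fh (hz : ZT_Stmt) (hι : IsCoprime ι (2 * n : ℤ)) (a b : ℤ) (f : Fn n) :
    Tt n ι a b (Fh n ι f) = Fh n ι (Tt n ι b (-a) f) := by
  have hadd := (hz n ι hι).2.1
  funext u
  rw [Tt_apply, Fh_apply, Fh_apply, ← Equiv.sum_comp (Equiv.addRight (2 * (a : ZMod (2 * n))))
    (fun k => Tt n ι b (-a) f k * zt n ι (k * u))]
  rw [← mul_assoc, mul_comm _ (1 / (2 * n : ℂ)), mul_assoc, Finset.mul_sum]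
  congr 1
  apply Finset.sum_congr rfl
  intro k _
  rw [Equiv.coe_addRight, Tt_apply]
  have h1 : k + 2 * (a : ZMod (2 * n)) + 2 * ((-a : ℤ) : ZMod (2 * n)) = k := by
    push_cast
    ring
  rw [h1]
  have h2 : zt n ι (2 * (a : ZMod (2 * n)) * b + 2 * a * u) * zt n ι (k * (u + 2 * b)) =
      zt n ι (2 * (b : ZMod (2 * n)) * ((-a : ℤ) : ZMod (2 * n)) +
        2 * b * (k + 2 * a)) * zt n ι ((k + 2 * a) * u) := by
    rw [← hadd, ← hadd]
    congr 1
    push_cast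
    ring
  linear_combination (f k) * h2

lemma stab_Fh (hz : ZT_Stmt) (hι : IsCoprime ι (2 * n : ℤ)) (v : ℤ × ℤ) (f : Fn n)
    (h : Stab n ι v f) : Stab n ι (rv v) (Fh n ι f) := by
  intro b
  have h1 := Tt_Fh hz hι (b * (rv v).1) (b * (rv v).2) f
  have h2 : -(b * (rv v).1) = b * v.2 := by
    simp [rv]
  have h3 : b * (rv v).2 = b * v.1 := rfl
  rw [h2, h3] at h1
  rw [h3, h1, h b]

lemma sum_evs (F : ZMod (2 * n) → ℂ) (hF : ∀ w : ℕ, F ((2 * w + 1 : ℕ) : ZMod (2 * n)) = 0) :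
    ∑ k, F k = ∑ w ∈ Finset.range n, F (2 * w) := by
  rw [TMA.sum_split, Finset.sum_eq_zero (s := Finset.range n)
    (f := fun w => F ((2 * w + 1 : ℕ) : ZMod (2 * n))) (fun w _ => hF w), add_zero]
  apply Finset.sum_congr rfl
  intro w _
  push_cast
  rfl

lemma pr_Fh (f g : Fn n) (hf : Evs n f) (hg : Evs n g) :
    pr n f (Fh n ι g) = pr n (Fh n ι f) g := by
  unfold pr
  have h1 : ∀ w : ℕ, f (2 * w) * Fh n ι g (2 * w) = (1 / (2 * n : ℂ)) *
      ∑ w' ∈ Finset.range n, f (2 * w) * (g (2 * w') * zt n ι (2 * w' * (2 * w))) := by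
    intro w
    rw [Fh_apply, sum_evs (fun k => g k * zt n ι (k * (2 * w)))
      (fun v => by simp only [hg v, zero_mul]), Finset.mul_sum, Finset.mul_sum, Finset.mul_sum]
    apply Finset.sum_congr rfl
    intro w' _
    ring
  have h2 : ∀ w : ℕ, Fh n ι f (2 * w) * g (2 * w) = (1 / (2 * n : ℂ)) *
      ∑ w' ∈ Finset.range n, f (2 * w') * zt n ι (2 * w' * (2 * w)) * g (2 * w) := by
    intro w
    rw [Fh_apply, sum_evs (fun k => f k * zt n ι (k * (2 * w)))
      (fun v => by simp only [hf v, zero_mul]), mul_assoc, Finset.sum_mul]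
  rw [Finset.sum_congr rfl fun w _ => h1 w, Finset.sum_congr rfl fun w _ => h2 w,
    ← Finset.mul_sum, ← Finset.mul_sum]
  congr 1
  rw [Finset.sum_comm]
  apply Finset.sum_congr rfl
  intro w _
  apply Finset.sum_congr rfl
  intro w' _
  rw [show (2 * (w : ZMod (2 * n)) * (2 * w') : ZMod (2 * n)) = 2 * w' * (2 * w) by ring]
  ring

omit [NeZero n] in
lemma evs_mul_left (f g : Fn n) (h : Evs n f) : Evs n (f * g) := by
  intro w
  rw [Pi.mul_apply, h w, zero_mul]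

omit [NeZero n] in
lemma evs_mul_right (f g : Fn n) (h : Evs n g) : Evs n (f * g) := by
  intro w
  rw [Pi.mul_apply, h w, mul_zero]

omit [NeZero n] in
lemma evs_add (f g : Fn n) (h : Evs n f) (h' : Evs n g) : Evs n (f + g) := by
  intro w
  rw [Pi.add_apply, h w, h' w, add_zero]

lemma evs_fe (e : ℤ) : Evs n (fe n ι e) := by
  intro w
  unfold fe
  rw [if_neg]
  rw [ZMod.val_natCast]
  intro h
  have h1 : (2 * w + 1) % (2 * n) % 2 = (2 * w + 1) % 2 := Nat.mod_mul_right_mod _ _ _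
  rw [Nat.even_iff, h1] at h
  omega

end Stu

open Stu

theorem t_FHT (hz : ZT_Stmt) : FHT_Stmt := by
  intro n _ ι hι
  exact ⟨fun a b f => Tt_Fh hz hι a b f, fun v f h => stab_Fh hz hι v f h,
    fun f g hf hg => pr_Fh f g hf hg⟩

theorem t_STU (h1 : FHT_Stmt) (hs : STB_Stmt) : STU_Stmt := by
  intro n _ ι hι t
  obtain ⟨hs1, hs2, -, -⟩ := hs n ι hι
  obtain ⟨-, hF, -⟩ := h1 n ι hι
  induction t with
  | pw e =>
    refine ⟨evs_fe e, ?_, hs2 e⟩
    intro w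
    change ((e : ℂ) / 2) • (bq n * fe n ι e) ((2 * w + 1 : ℕ) : ZMod (2 * n)) = 0
    rw [evs_mul_right _ _ (evs_fe e) w, smul_zero]
  | cons a b iha ihb =>
    obtain ⟨-, -, ha3⟩ := iha
    obtain ⟨hb1, hb2, hb3⟩ := ihb
    exact ⟨evs_mul_right _ _ hb1, evs_add _ _ (evs_mul_right _ _ hb1) (evs_mul_right _ _ hb2),
      hs1 _ _ _ _ (hF _ _ ha3) hb3⟩

end Pool.Agent.UB
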