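import Pool.Agent.UB.Stmts

/-!
Module ACT of Theorem U (MP_31fd3b_gt): the value of the functor on the closure of a tree is the
value of its matrix.
-/

open scoped BigOperators

namespace Pool.Agent.UB

open Pool.Agent.LibH11.Sliced Pool.Agent.MTR Pool.Agent.MT Pool.Agent.MTA Pool.Agent.UA
open Pool.Agent.TB hiding vec

namespace Actx

variable {A S : Type} [CommRing A] [Fintype S] [DecidableEq S] (T : TData A S)

theorem st_append (u v : Diag) (ψ : List S → A) : T.st (u ++ v) ψ = T.st v (T.st u ψ) := by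
  induction u generalizing ψ with
  | nil => rfl
  | cons x u ih =>
    obtain ⟨k, i⟩ := x
    exact ih _

theorem st_shift (t : Diag) (ψ : List S → A) (y : S) (l : List S) :
    T.st (Pool.Agent.TwoBr.sh 1 t) ψ (y :: l) = T.st t (fun l' => ψ (y :: l')) l := by
  induction t generalizing ψ with
  | nil => rfl
  | cons x t ih =>
    obtain ⟨k, i⟩ := x
    exact ih _

/-- The matrix `M` describes the action of the tangle `D`. -/
def Rep (D : Diag) (M : Matrix (S × S) (S × S) A) : Prop :=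
  ∀ (ψ : List S → A) (y0 y1 : S) (l : List S),
    T.st D ψ (y0 :: y1 :: l) = ∑ x0, ∑ x1, M (y0, y1) (x0, x1) * ψ (x0 :: x1 :: l)

theorem rep_nil : Rep T [] (1 : Matrix (S × S) (S × S) A) := by
  intro ψ y0 y1 l
  change ψ (y0 :: y1 :: l) = _
  rw [← Fintype.sum_prod_type'
    (fun x0 x1 => (1 : Matrix (S × S) (S × S) A) (y0, y1) (x0, x1) * ψ (x0 :: x1 :: l)),
    Finset.sum_eq_single ((y0, y1) : S × S)]
  · rw [Matrix.one_apply_eq, one_mul]
  · rintro ⟨x0, x1⟩ _ hx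
    change (1 : Matrix (S × S) (S × S) A) (y0, y1) (x0, x1) * _ = 0
    rw [Matrix.one_apply_ne (Ne.symm hx), zero_mul]
  · intro h
    exact absurd (Finset.mem_univ _) h

theorem rep_crs (e : Bool) : Rep T [(Kind.crs e, 0)] (sg T e) := by
  intro ψ y0 y1 l
  rfl

theorem rep_comp {D D' : Diag} {M M' : Matrix (S × S) (S × S) A} (h : Rep T D M)
    (h' : Rep T D' M') : Rep T (D ++ D') (M' * M) := by
  intro ψ y0 y1 l
  rw [st_append, h' (T.st D ψ) y0 y1 l]
  have h1 : ∀ x0 x1 : S, M' (y0, y1) (x0, x1) * T.st D ψ (x0 :: x1 :: l) =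
      ∑ z : S × S, M' (y0, y1) (x0, x1) * (M (x0, x1) z * ψ (z.1 :: z.2 :: l)) := by
    intro x0 x1
    rw [h ψ x0 x1 l, ← Fintype.sum_prod_type'
      (fun z0 z1 => M (x0, x1) (z0, z1) * ψ (z0 :: z1 :: l)), Finset.mul_sum]
  rw [← Fintype.sum_prod_type' (fun x0 x1 => M' (y0, y1) (x0, x1) * T.st D ψ (x0 :: x1 :: l)),
    ← Fintype.sum_prod_type' (fun x0 x1 => (M' * M) (y0, y1) (x0, x1) * ψ (x0 :: x1 :: l))]
  rw [Finset.sum_congr rfl fun (x : S × S) _ => h1 x.1 x.2, Finset.sum_comm]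
  apply Finset.sum_congr rfl
  rintro ⟨z0, z1⟩ _
  rw [Matrix.mul_apply, Finset.sum_mul]
  apply Finset.sum_congr rfl
  rintro ⟨x0, x1⟩ _
  exact (mul_assoc _ _ _).symm

theorem rep_pow (e : Bool) (n : ℕ) :
    Rep T (List.replicate n (Kind.crs e, 0)) (sg T e ^ n) := by
  induction n with
  | zero =>
    rw [pow_zero]
    exact rep_nil T
  | succ n ih =>
    rw [pow_succ]
    exact rep_comp T (rep_crs T e) ih

theorem rep_rot {D : Diag} {M : Matrix (S × S) (S × S) A} (h : Rep T D M) :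
    Rep T (rotD D) (rot T M) := by
  intro ψ y0 y1 l
  have h1 : T.st (rotD D) ψ (y0 :: y1 :: l) =
      ∑ a, ∑ b, T.cap a b *
        T.st (Pool.Agent.TwoBr.sh 1 D) (T.ap0 Kind.cup ψ) (y0 :: y1 :: a :: b :: l) := by
    change T.st (Pool.Agent.TwoBr.sh 1 D ++ [(Kind.cap, 2)]) (T.ap0 Kind.cup ψ)
      (y0 :: y1 :: l) = _
    rw [st_append]
    rfl
  have h2 : ∀ a b : S, T.st (Pool.Agent.TwoBr.sh 1 D) (T.ap0 Kind.cup ψ)
      (y0 :: y1 :: a :: b :: l) =
      ∑ x0, ∑ x1, M (y1, a) (x0, x1) * (T.cup y0 x0 * ψ (x1 :: b :: l)) := by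
    intro a b
    rw [st_shift, h]
    rfl
  rw [h1]
  have h3 : ∀ x0 x1 : S, rot T M (y0, y1) (x0, x1) * ψ (x0 :: x1 :: l) =
      ∑ a, ∑ x, T.cap a x1 * (M (y1, a) (x, x0) * (T.cup y0 x * ψ (x0 :: x1 :: l))) := by
    intro x0 x1
    change (∑ a, ∑ x, T.cap a x1 * M (y1, a) (x, x0) * T.cup y0 x) * _ = _
    rw [Finset.sum_mul]
    apply Finset.sum_congr rfl
    intro a _
    rw [Finset.sum_mul]
    apply Finset.sum_congr rfl
    intro x _
    ring
  have h4 : ∀ a b : S, T.cap a b * T.st (Pool.Agent.TwoBr.sh 1 D) (T.ap0 Kind.cup ψ)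
      (y0 :: y1 :: a :: b :: l) =
      ∑ x1, ∑ x0, T.cap a b * (M (y1, a) (x0, x1) * (T.cup y0 x0 * ψ (x1 :: b :: l))) := by
    intro a b
    rw [h2, Finset.sum_comm, Finset.mul_sum]
    apply Finset.sum_congr rfl
    intro x1 _
    rw [Finset.mul_sum]
  have h5 : ∑ a, ∑ b, T.cap a b * T.st (Pool.Agent.TwoBr.sh 1 D) (T.ap0 Kind.cup ψ)
      (y0 :: y1 :: a :: b :: l) =
      ∑ a, ∑ b, ∑ x1, ∑ x0, T.cap a b *
        (M (y1, a) (x0, x1) * (T.cup y0 x0 * ψ (x1 :: b :: l))) :=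
    Finset.sum_congr rfl fun a _ => Finset.sum_congr rfl fun b _ => h4 a b
  have h6 : ∑ x0, ∑ x1, rot T M (y0, y1) (x0, x1) * ψ (x0 :: x1 :: l) =
      ∑ x0, ∑ x1, ∑ a, ∑ x, T.cap a x1 *
        (M (y1, a) (x, x0) * (T.cup y0 x * ψ (x0 :: x1 :: l))) :=
    Finset.sum_congr rfl fun a _ => Finset.sum_congr rfl fun b _ => h3 a b
  rw [h5, h6]
  -- a, b, x1, x0  versus  x0 = x1, x1 = b, a, x = x0
  calc ∑ a, ∑ b, ∑ x1, ∑ x0, T.cap a b *
        (M (y1, a) (x0, x1) * (T.cup y0 x0 * ψ (x1 :: b :: l)))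
      = ∑ a, ∑ x1, ∑ b, ∑ x0, T.cap a b *
        (M (y1, a) (x0, x1) * (T.cup y0 x0 * ψ (x1 :: b :: l))) :=
        Finset.sum_congr rfl fun a _ => Finset.sum_comm
    _ = ∑ x1, ∑ a, ∑ b, ∑ x0, T.cap a b *
        (M (y1, a) (x0, x1) * (T.cup y0 x0 * ψ (x1 :: b :: l))) := Finset.sum_comm
    _ = ∑ x1, ∑ b, ∑ a, ∑ x0, T.cap a b *
        (M (y1, a) (x0, x1) * (T.cup y0 x0 * ψ (x1 :: b :: l))) :=
        Finset.sum_congr rfl fun x1 _ => Finset.sum_comm

theorem rep_tree (t : Tr) : Rep T t.dg (mt T t) := by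
  induction t with
  | pw e => exact rep_pow T _ _
  | cons a b iha ihb => exact rep_comp T (rep_rot T iha) ihb

theorem clo_eq {D : Diag} {M : Matrix (S × S) (S × S) A} (h : Rep T D M) (s : S) :
    T.J s (cl D) = clo T M s := by
  have h1 : T.J s (cl D) = ∑ a, ∑ b, T.cap a b *
      T.st D (T.ap Kind.cup 1 (fun l => if l = [s] then 1 else 0)) (s :: a :: b :: []) := by
    change T.st (D ++ [(Kind.cap, 1)])
      (T.ap Kind.cup 1 (fun l => if l = [s] then 1 else 0)) [s] = _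
    rw [st_append]
    rfl
  rw [h1]
  unfold clo
  apply Finset.sum_congr rfl
  intro a _
  apply Finset.sum_congr rfl
  intro b _
  rw [h, Finset.sum_eq_single s]
  · rw [Finset.mul_sum]
    apply Finset.sum_congr rfl
    intro x _
    change T.cap a b * (M (s, a) (s, x) * (T.cup x b * (if [s] = [s] then 1 else 0))) = _
    rw [if_pos rfl]
    ring
  · intro x0 _ hx
    apply Finset.sum_eq_zero
    intro x _
    change M (s, a) (x0, x) * (T.cup x b * (if [x0] = [s] then 1 else 0)) = 0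
    rw [if_neg (fun h' => hx (List.head_eq_of_cons_eq h')), mul_zero, mul_zero]
  · intro h'
    exact absurd (Finset.mem_univ _) h'

end Actx

/-- Module ACT. -/
theorem t_ACT : ACT_Stmt := by
  intro A S _ _ _ T s t
  exact Actx.clo_eq T (Actx.rep_tree T t) s

end Pool.Agent.UB
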