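import Pool.Agent.UB.Stmts

/-!
Finite type invariants detect the unknot among the arborescent knots (MP_31fd3b_gt, Theorem U):
module DERU (the derivative of a tree in a context). See PAPER.md in this folder.
-/

open scoped BigOperators Real

namespace Pool.Agent.UB

open Pool.Agent.LibH11.Sliced Pool.Agent.MTR Pool.Agent.MT Pool.Agent.MTA Pool.Agent.UA
open Pool.Agent.TB hiding vec

namespace DERU

section

variable (n : ℕ) [NeZero n]

theorem pr_add (f g h : Fn n) : pr n f (g + h) = pr n f g + pr n f h := by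
  rw [pr, pr, pr, ← Finset.sum_add_distrib]
  refine Finset.sum_congr rfl fun w _ => ?_
  rw [Pi.add_apply, mul_add]

theorem pr_sub (f g h : Fn n) : pr n f (g - h) = pr n f g - pr n f h := by
  rw [pr, pr, pr, ← Finset.sum_sub_distrib]
  refine Finset.sum_congr rfl fun w _ => ?_
  rw [Pi.sub_apply, mul_sub]

theorem pr_smul (c : ℂ) (f g : Fn n) : pr n f (c • g) = c * pr n f g := by
  rw [pr, pr, Finset.mul_sum]
  refine Finset.sum_congr rfl fun w _ => ?_
  rw [Pi.smul_apply, smul_eq_mul]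
  ring

/-- a factor of the second argument may be moved to the first one -/
theorem pr_mul_right (f g h : Fn n) : pr n f (g * h) = pr n (f * h) g := by
  rw [pr, pr]
  refine Finset.sum_congr rfl fun w _ => ?_
  rw [Pi.mul_apply, Pi.mul_apply]
  ring

theorem pr_mul_left (f g h : Fn n) : pr n f (g * h) = pr n (f * g) h := by
  rw [mul_comm, pr_mul_right]

theorem evs_mul_right {f g : Fn n} (hg : Evs n g) : Evs n (f * g) := by
  intro w
  rw [Pi.mul_apply, hg w, mul_zero]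

end

theorem weight_a (L va vb : ℤ × ℤ) :
    (addv (rv (addv L vb)) va).1 = (addv L (addv (rv va) vb)).1 := by
  simp only [addv, rv]
  ring

theorem weight_b (L va vb : ℤ × ℤ) :
    (addv (addv L (rv va)) vb).1 = (addv L (addv (rv va) vb)).1 := by
  simp only [addv, rv]
  ring

theorem addv_cons (L va vb : ℤ × ℤ) :
    addv (addv L vb) (rv va) = addv L (addv (rv va) vb) := by
  ext <;> simp only [addv, rv] <;> ring

end DERU

open DERU in
theorem t_DERU (h1 : FHT_Stmt) (h2 : STU_Stmt) (h3 : THX_Stmt) (h4 : LAMB_Stmt)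
    (hs : STB_Stmt) : DERU_Stmt := by
  intro n _ ι hn hι t
  obtain ⟨-, hF2, hF3⟩ := h1 n ι hι
  obtain ⟨hmul, hfe, -, -⟩ := hs n ι hι
  induction t with
  | pw e =>
    intro L Φ hΦ κ hκ
    have hv : vec (.pw e) = (-e, 1) := rfl
    rw [hv] at hκ
    have hS : Stab n ι (addv L (-e, 1)) (Φ * fe n ι e) := hmul _ _ _ _ hΦ (hfe e)
    have hS' : Stab n ι (-(cx (addv L (-e, 1))).1, (cx (addv L (-e, 1))).2) (Φ * fe n ι e) := by
      have h5 : (-(cx (addv L (-e, 1))).1, (cx (addv L (-e, 1))).2) = addv L (-e, 1) := by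
        ext
        · simp [cx]
        · simp [cx]
      rw [h5]
      exact hS
    have h6 := h4 n ι hn hι (cx (addv L (-e, 1))) (Φ * fe n ι e) hS' κ hκ
    have h7 : (cx (addv L (-e, 1))).2 = L.2 := by
      simp [cx, addv]
    rw [h7] at h6
    have h8 : pr n (Φ * fe n ι e) 1 = pr n Φ (fe n ι e) := by
      rw [← pr_mul_left, mul_one]
    show pr n Φ (((e : ℂ) / 2) • (bq n * fe n ι e)) = pr n Φ (fe n ι e) *
        (-((n : ℂ) ^ 2 - 1) / 12 * (e : ℂ) + ((e : ℂ) / 4) *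
          CS n (-L.2) (fun v => ZMod.stdAddChar (κ * v)))
    rw [pr_smul, pr_mul_right, h6, h8]
    ring
  | cons a b iha ihb =>
    intro L Φ hΦ κ hκ
    have hv : vec (.cons a b) = addv (rv (vec a)) (vec b) := rfl
    obtain ⟨ea1, ea2, sa⟩ := h2 n ι hι a
    obtain ⟨eb1, eb2, sb⟩ := h2 n ι hι b
    set fa := (sta n ι a).1 with hfa
    set ga := (sta n ι a).2 with hga
    set fb := (sta n ι b).1 with hfb
    set gb := (sta n ι b).2 with hgb
    set χ : ZMod n → ℂ := fun v => ZMod.stdAddChar (κ * v) with hχ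
    have hW : Stab n ι (addv L (vec b)) (Φ * fb) := hmul _ _ _ _ hΦ sb
    have hFW : Stab n ι (rv (addv L (vec b))) (Fh n ι (Φ * fb)) := hF2 _ _ hW
    have hFa : Stab n ι (rv (vec a)) (Fh n ι fa) := hF2 _ _ sa
    have hLb : Stab n ι (addv L (rv (vec a))) (Φ * Fh n ι fa) := hmul _ _ _ _ hΦ hFa
    have hEW : Evs n (Φ * fb) := evs_mul_right n eb1
    have hET : Evs n (Th n ι 1 * fa) := evs_mul_right n ea1
    -- the conditions on `κ`
    have hκa : κ * ι * ((-(addv (rv (addv L (vec b))) (vec a)).1 : ℤ) : ZMod n) = 1 := by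
      rw [weight_a, ← hv]
      exact hκ
    have hκb : κ * ι * ((-(addv (addv L (rv (vec a))) (vec b)).1 : ℤ) : ZMod n) = 1 := by
      rw [weight_b, ← hv]
      exact hκ
    have hκW : κ * ι * ((-(addv (addv L (vec b)) (rv (vec a))).1 : ℤ) : ZMod n) = 1 := by
      rw [addv_cons, ← hv]
      exact hκ
    -- the pairing
    have hP1 : pr n (Fh n ι (Φ * fb)) fa = pr n Φ (Fh n ι fa * fb) := by
      rw [← hF3 _ _ hEW ea1, pr_mul_right n Φ]
    have hP2 : pr n (Φ * fb) (Fh n ι fa) = pr n Φ (Fh n ι fa * fb) := by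
      rw [pr_mul_right n Φ]
    have hP3 : pr n (Φ * Fh n ι fa) fb = pr n Φ (Fh n ι fa * fb) := by
      rw [pr_mul_left n Φ]
    -- the five terms
    have t1 : pr n (Φ * fb) (Fh n ι ga) = pr n Φ (Fh n ι fa * fb) *
        (-((n : ℂ) ^ 2 - 1) / 12 * (exs a : ℂ) + TU n χ (rv (addv L (vec b))) a) := by
      rw [hF3 _ _ hEW ea2, iha _ _ hFW κ hκa, hP1]
    have t2 : pr n (Φ * fb) (Th n ι (Fh n ι fa)) = -(1 / 4) *
        CC n (cx (addv L (vec b))) (rv (vec a)) (1, 0) (0, 1) χ *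
          pr n Φ (Fh n ι fa * fb) := by
      rw [(h3 n ι hn hι _ _ _ _ hW hFa κ hκW).1, hP2]
    have t3 : pr n (Φ * fb) (Th n ι 1 * Fh n ι fa) = -(1 / 4) *
        CC n (cx (addv L (vec (.cons a b)))) (0, 1) (1, 0) (0, 1) χ *
          pr n Φ (Fh n ι fa * fb) := by
      rw [(h3 n ι hn hι _ _ _ _ hW hFa κ hκW).2, hP2, addv_cons, hv]
    have t4 : pr n (Φ * fb) (Fh n ι (Th n ι 1 * fa)) = -(1 / 4) *
        CC n (cx (addv (rv (addv L (vec b))) (vec a))) (0, 1) (1, 0) (0, 1) χ *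
          pr n Φ (Fh n ι fa * fb) := by
      rw [hF3 _ _ hEW hET, (h3 n ι hn hι _ _ _ _ hFW sa κ hκa).2, hP1]
    have t5 : pr n (Φ * Fh n ι fa) gb = pr n Φ (Fh n ι fa * fb) *
        (-((n : ℂ) ^ 2 - 1) / 12 * (exs b : ℂ) + TU n χ (addv L (rv (vec a))) b) := by
      rw [ihb _ _ hLb κ hκb, hP3]
    have hsum : pr n Φ (sta n ι (.cons a b)).2 = pr n (Φ * fb) (Fh n ι ga) -
        pr n (Φ * fb) (Th n ι (Fh n ι fa)) + pr n (Φ * fb) (Th n ι 1 * Fh n ι fa) -
        pr n (Φ * fb) (Fh n ι (Th n ι 1 * fa)) + pr n (Φ * Fh n ι fa) gb := by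
      show pr n Φ ((Fh n ι ga - Th n ι (Fh n ι fa) + Th n ι 1 * Fh n ι fa -
        Fh n ι (Th n ι 1 * fa)) * fb + Fh n ι fa * gb) = _
      rw [pr_add, pr_mul_right n Φ _ fb, pr_mul_left n Φ (Fh n ι fa) gb, pr_sub, pr_add, pr_sub]
    have hone : pr n Φ (sta n ι (.cons a b)).1 = pr n Φ (Fh n ι fa * fb) := rfl
    have hex : (exs (.cons a b) : ℂ) = (exs a : ℂ) + (exs b : ℂ) := by
      show ((exs a + exs b : ℤ) : ℂ) = _
      push_cast
      ring
    have hTU : TU n χ L (.cons a b) = (1 / 4) *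
        (CC n (cx (addv L (vec b))) (rv (vec a)) (1, 0) (0, 1) χ -
          CC n (cx (addv L (vec (.cons a b)))) (0, 1) (1, 0) (0, 1) χ +
          CC n (cx (addv (rv (addv L (vec b))) (vec a))) (0, 1) (1, 0) (0, 1) χ) +
        TU n χ (rv (addv L (vec b))) a + TU n χ (addv L (rv (vec a))) b := rfl
    rw [hsum, t1, t2, t3, t4, t5, hone, hex, hTU]
    ring

end Pool.Agent.UB
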