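import Pool.Agent.UB.Stmts

/-!
HS: the half-spin part of Theorem U, from INTU, LGUV, CFIN.
-/

open Polynomial
open scoped BigOperators Real Matrix

namespace Pool.Agent.UB

open Pool.Agent.LibH11.Sliced Pool.Agent.MTR Pool.Agent.MT Pool.Agent.MTA Pool.Agent.UA
open Pool.Agent.TB hiding vec

namespace HS

theorem sq_one {a : ℤ} (h : |a| = 1) : a * a = 1 := by
  rcases abs_eq (by norm_num : (0 : ℤ) ≤ 1) |>.1 h with h | h <;> rw [h] <;> norm_num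

theorem odd_of_abs {a : ℤ} (h : |a| = 1) : Odd a := by
  rcases abs_eq (by norm_num : (0 : ℤ) ≤ 1) |>.1 h with h | h
  · rw [h]; exact odd_one
  · rw [h]; exact ⟨-1, by norm_num⟩

/-- an odd integer which is inverse to a given unit -/
theorem exists_inv {s : ℕ} (hs : 2 ≤ s) (κ : ZMod (2 ^ s)) (hκ : IsUnit κ) :
    ∃ ι : ℤ, Odd ι ∧ κ * (ι : ZMod (2 ^ s)) = 1 := by
  obtain ⟨u, hu⟩ := hκ
  refine ⟨((((u⁻¹ : (ZMod (2 ^ s))ˣ) : ZMod (2 ^ s)).val : ℕ) : ℤ), ?_, ?_⟩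
  · have h1 := ZMod.val_coe_unit_coprime (u⁻¹)
    have h2 : Nat.Coprime (((u⁻¹ : (ZMod (2 ^ s))ˣ) : ZMod (2 ^ s)).val) 2 :=
      Nat.Coprime.coprime_dvd_right (dvd_pow_self 2 (by omega)) h1
    have h3 : Odd (((u⁻¹ : (ZMod (2 ^ s))ˣ) : ZMod (2 ^ s)).val) :=
      Nat.coprime_two_right.1 h2
    exact_mod_cast h3
  · rw [← hu]
    push_cast
    rw [ZMod.natCast_zmod_val, Units.mul_inv]

theorem coprime_of_odd {ι : ℤ} (h : Odd ι) (s : ℕ) :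
    IsCoprime ι (2 * ((2 ^ s : ℕ) : ℤ)) := by
  have h2 : IsCoprime ι 2 := (Int.isCoprime_iff_gcd_eq_one.2 (by
    have := Int.odd_iff.1 h
    rw [Int.gcd_comm]
    have h3 : Int.gcd 2 ι ∣ 2 := by
      have := Int.gcd_dvd_left (a := 2) (b := ι)
      exact_mod_cast this
    rcases (Nat.dvd_prime Nat.prime_two).1 h3 with h4 | h4
    · exact h4
    · exfalso
      have h5 : ((Int.gcd 2 ι : ℕ) : ℤ) ∣ ι := Int.gcd_dvd_right ..
      rw [h4] at h5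
      omega))
  push_cast
  rw [show (2 : ℤ) * 2 ^ s = 2 ^ (s + 1) by ring]
  exact h2.pow_right

end HS

open HS in
theorem t_HS (h1 : INTU_Stmt) (h2 : LGUV_Stmt) (h3 : CFIN_Stmt) : HS_Stmt := by
  intro Ts h h0 hD hv t ht
  refine h3 Ts hD ?_ t ht
  intro s hs
  obtain ⟨K, hK⟩ := h1 Ts h h0 (fun t ht => odd_of_abs (hD t ht)) hv s hs
  refine ⟨K, fun κ hκ => ?_⟩
  obtain ⟨ι, hι, hκι⟩ := exists_inv hs κ hκ
  obtain ⟨hne0, hne, hsum⟩ := hK ι hι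
  have hn : 1 < 2 ^ s := Nat.one_lt_two_pow (by omega)
  have hco := coprime_of_odd hι s
  have key : ∀ (t : Tr) (κ' : ZMod (2 ^ s)), (Va (2 ^ s) ι t).1 ≠ 0 →
      κ' * ι * ((-(vec t).1 : ℤ) : ZMod (2 ^ s)) = 1 →
      (Va (2 ^ s) ι t).2 / (Va (2 ^ s) ι t).1 = LU (2 ^ s) t κ' := by
    intro t κ' h0 hk
    have := h2 (2 ^ s) ι hn hco t κ' hk
    rw [this, mul_div_cancel_left₀ _ h0]
  rw [← hsum]
  congr 1
  refine List.map_congr_left fun t ht => ?_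
  rw [key t (((-(vec t).1 : ℤ) : ZMod (2 ^ s)) * κ) (hne t ht) ?_, key (.pw 1) κ hne0 ?_]
  · simp only [vec, neg_neg, Int.cast_one, mul_one]
    exact hκι
  · have hsq : ((-(vec t).1 : ℤ) : ZMod (2 ^ s)) * ((-(vec t).1 : ℤ) : ZMod (2 ^ s)) = 1 := by
      rw [← Int.cast_mul, neg_mul_neg, sq_one (hD t ht), Int.cast_one]
    calc ((-(vec t).1 : ℤ) : ZMod (2 ^ s)) * κ * ι * ((-(vec t).1 : ℤ) : ZMod (2 ^ s))
        = (((-(vec t).1 : ℤ) : ZMod (2 ^ s)) * ((-(vec t).1 : ℤ) : ZMod (2 ^ s))) * (κ * ι) := by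
          ring
      _ = 1 := by rw [hsq, hκι, one_mul]

end Pool.Agent.UB
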