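import Pool.Agent.UB.Stmts
import Pool.Agent.MT.Int

/-!
INTU: equality of the finite type invariants with those of the unknot: the values of the trees in
the model at a root of unity.
-/

open Polynomial
open scoped BigOperators Real Matrix

namespace Pool.Agent.UB

open Pool.Agent.LibH11.Sliced Pool.Agent.MTR Pool.Agent.MT Pool.Agent.MTA Pool.Agent.UA
open Pool.Agent.TB hiding vec

namespace INTU

/-- the logarithmic derivative -/
noncomputable def lg (x : DualNumber ℂ) : ℂ := x.snd / x.fst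

theorem lg_mul {x y : DualNumber ℂ} (hx : x.fst ≠ 0) (hy : y.fst ≠ 0) :
    lg (x * y) = lg x + lg y := by
  simp only [lg, TrivSqZeroExt.fst_mul, TrivSqZeroExt.snd_mul, smul_eq_mul, op_smul_eq_smul]
  field_simp
  ring

theorem lg_one : lg (1 : DualNumber ℂ) = 0 := by
  simp [lg]

theorem fst_pow_ne {x : DualNumber ℂ} (hx : x.fst ≠ 0) (k : ℕ) : (x ^ k).fst ≠ 0 := by
  rw [TrivSqZeroExt.fst_pow]
  exact pow_ne_zero _ hx

theorem lg_pow {x : DualNumber ℂ} (hx : x.fst ≠ 0) (k : ℕ) : lg (x ^ k) = k * lg x := by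
  induction k with
  | zero => simp [lg_one]
  | succ k ih =>
    rw [pow_succ, lg_mul (fst_pow_ne hx k) hx, ih]
    push_cast
    ring

theorem fst_prod (l : List (DualNumber ℂ)) : l.prod.fst = (l.map TrivSqZeroExt.fst).prod := by
  induction l with
  | nil => simp
  | cons a l ih => rw [List.prod_cons, TrivSqZeroExt.fst_mul, ih, List.map_cons, List.prod_cons]

theorem fst_prod_ne {l : List (DualNumber ℂ)} (h : ∀ x ∈ l, x.fst ≠ 0) : l.prod.fst ≠ 0 := by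
  rw [fst_prod]
  intro h0
  obtain ⟨x, hx, hx0⟩ := List.mem_map.1 (List.prod_eq_zero_iff.1 h0)
  exact h x hx hx0

theorem ne_of_fst_prod_ne {l : List (DualNumber ℂ)} (h : l.prod.fst ≠ 0) :
    ∀ x ∈ l, x.fst ≠ 0 := by
  intro x hx h0
  refine h ?_
  rw [fst_prod]
  exact List.prod_eq_zero_iff.2 (List.mem_map.2 ⟨x, hx, h0⟩)

theorem lg_prod {l : List (DualNumber ℂ)} (h : ∀ x ∈ l, x.fst ≠ 0) :
    lg l.prod = (l.map lg).sum := by
  induction l with
  | nil => simp [lg_one]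
  | cons a l ih =>
    have h1 : ∀ x ∈ l, x.fst ≠ 0 := fun x hx => h x (List.mem_cons_of_mem _ hx)
    rw [List.prod_cons, lg_mul (h a List.mem_cons_self) (fst_prod_ne h1), ih h1, List.map_cons,
      List.sum_cons]

theorem lg_inl (x : ℂ) : lg (TrivSqZeroExt.inl x : DualNumber ℂ) = 0 := by
  simp [lg]

theorem lg_va (p : ℂ × ℂ) :
    lg (TrivSqZeroExt.inl p.1 + TrivSqZeroExt.inr p.2 : DualNumber ℂ) = p.2 / p.1 := by
  simp [lg]

/-- the values over the power series -/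
theorem qps (h1 : JLS_Stmt) (h3 : UNK_Stmt) (hftm : FTM_Stmt) (htdg : TDG_Stmt)
    (hhz : HZ_Stmt) (hgps : GPS_Stmt) (Ts : List Tr) (h : IsLongKnot (cls Ts))
    (h0 : IsLongKnot []) (hodd : ∀ t ∈ Ts, Odd (vec t).1)
    (hv : ∀ v : Knot → ℂ, IsFiniteType v → v (ofDiag (cls Ts) h) = v (ofDiag [] h0))
    (r : ℕ) (hr : Even r) : ∃ m : ℤ,
      ((tht QPS r ^ m : (PowerSeries ℂ)ˣ) : PowerSeries ℂ) *
          (Ts.map fun t => dlt QPS r * cval QPS r (tp QPS r t)).prod =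
        ((List.replicate Ts.length (Tr.pw 1)).map
          fun t => dlt QPS r * cval QPS r (tp QPS r t)).prod := by
  have : CharZero (PowerSeries ℂ) := charZero_of_injective_ringHom
    (PowerSeries.C_injective (R := ℂ))
  have k := hftm (SL r) (tdata QPS r) (s0 r) (htdg _ QPS r hr (hgps r).1 (hgps r).2)
    (hhz r hr) (cls Ts) [] h h0 hv
  have k1 : (tdata QPS r).J (s0 r) [] = 1 := by
    simp [TData.J, TData.st]
  obtain ⟨m1, hm1⟩ := h1 _ QPS r hr (hgps r).1 (hgps r).2 Ts hodd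
  obtain ⟨m2, hm2⟩ := h1 _ QPS r hr (hgps r).1 (hgps r).2 [Tr.pw 1] (by
    intro t ht
    rw [List.mem_singleton.1 ht]
    exact ⟨-1, by simp [vec]⟩)
  have k2 : cls [Tr.pw 1] = cl (Tr.pw 1).dg := by simp [cls]
  rw [k2, h3 _ QPS r hr (hgps r).1 (hgps r).2] at hm2
  rw [k, k1] at hm1
  simp only [List.map_cons, List.map_nil, List.prod_cons, List.prod_nil, mul_one] at hm2
  refine ⟨m1 - m2 * Ts.length, ?_⟩
  rw [List.map_replicate, List.prod_replicate]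
  set X := dlt QPS r * cval QPS r (tp QPS r (Tr.pw 1)) with hX
  set P := (Ts.map fun t => dlt QPS r * cval QPS r (tp QPS r t)).prod with hP
  have k3 : ((tht QPS r ^ (m2 * Ts.length) : (PowerSeries ℂ)ˣ) : PowerSeries ℂ) *
      X ^ Ts.length = 1 := by
    rw [zpow_mul, zpow_natCast, Units.val_pow_eq_pow_val, ← mul_pow, ← hm2, one_pow]
  have k4 : ((tht QPS r ^ (m1 - m2 * Ts.length) : (PowerSeries ℂ)ˣ) : PowerSeries ℂ) *
      ((tht QPS r ^ (m2 * Ts.length) : (PowerSeries ℂ)ˣ) : PowerSeries ℂ) =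
      ((tht QPS r ^ m1 : (PowerSeries ℂ)ˣ) : PowerSeries ℂ) := by
    rw [← Units.val_mul, ← zpow_add, sub_add_cancel]
  generalize ((tht QPS r ^ (m1 - m2 * Ts.length) : (PowerSeries ℂ)ˣ) : PowerSeries ℂ) = a at *
  generalize ((tht QPS r ^ (m2 * Ts.length) : (PowerSeries ℂ)ˣ) : PowerSeries ℂ) = b at *
  rw [← k4] at hm1
  calc a * P = a * P * (b * X ^ Ts.length) := by rw [k3, mul_one]
    _ = (a * b * P) * X ^ Ts.length := by ring
    _ = X ^ Ts.length := by rw [← hm1, one_mul]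

/-- the value of the closure of one half twist in the model is not zero -/
theorem va_one (hmnz : MNZ_Stmt) (hmtd : MTD_Stmt) (s : ℕ) (hs : 2 ≤ s) (ι : ℤ) (hι : Odd ι) :
    (Va (2 ^ s) ι (.pw 1)).1 ≠ 0 := by
  have h1 := hmnz [] 1 ⟨⟨by simp, by simp, Or.inl ⟨rfl, odd_one⟩⟩, by simp⟩ s hs ι hι
  rw [(hmtd (2 ^ s) ι [] 1).1] at h1
  have h2 : (Va (2 ^ s) ι (.pw 1)).1 = pr (2 ^ s) (Pp (2 ^ s) ι 1 []) 1 := by
    simp [Va, sta, pr, Pp]
  rw [h2]
  exact h1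

end INTU

open INTU in
theorem t_INTU (h1 : JLS_Stmt) (h2 : TRF_Stmt) (h3 : UNK_Stmt) (h4 : CVU_Stmt) (h5 : TMA_Stmt)
    (h6 : FTM_Stmt) (h7 : TDG_Stmt) (h8 : HZ_Stmt) (h9 : GPS_Stmt) (h10 : GRT_Stmt)
    (h11 : MNZ_Stmt) (h12 : MTD_Stmt) : INTU_Stmt := by
  intro Ts h h0 hodd hv s hs
  obtain ⟨m', rfl⟩ : ∃ m', s = m' + 2 := ⟨s - 2, by omega⟩
  set r : ℕ := 2 ^ (m' + 1) with hrdef
  have hr : Even r := ⟨2 ^ m', by rw [hrdef, pow_succ]; ring⟩
  have hrpos : 0 < r := by rw [hrdef]; positivity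
  have hn : 2 ^ (m' + 2) = 2 * r := by rw [hrdef, pow_succ]; ring
  obtain ⟨m, hm⟩ := INTU.qps h1 h3 h6 h7 h8 h9 Ts h h0 hodd hv r hr
  refine ⟨-((m : ℂ) * ((r : ℂ) ^ 2 - (r : ℂ) / 2)), fun ι hι => ?_⟩
  have hc : IsCoprime ι (2 * (2 ^ (m' + 2) : ℕ) : ℤ) := by
    have h6 : IsCoprime ι (2 : ℤ) := by
      obtain ⟨k, hk⟩ := hι
      exact ⟨1, -k, by rw [hk]; ring⟩
    push_cast
    exact h6.mul_right h6.pow_right
  have hc4 : IsCoprime ι (4 * r : ℤ) := by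
    have h6 : (4 * r : ℤ) = (2 * (2 ^ (m' + 2) : ℕ) : ℤ) := by
      rw [hn]; push_cast; ring
    rw [h6]; exact hc
  have hg := (h10 r ι hrpos hc4).1
  have hnz : NeZero (2 * r) := ⟨by omega⟩
  have hsz : sz (2 * r) ι = sz (2 ^ (m' + 2)) ι := by
    apply Units.ext
    simp only [sz, Units.val_mk0]
    rw [← hn]
  rw [hsz] at hg
  obtain ⟨hE, hD⟩ := h2 r (sz (2 ^ (m' + 2)) ι) hr hg
  have hE := hE m Ts _ hm
  rw [List.map_replicate, List.prod_replicate] at hE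
  have hB := (h5 (2 ^ (m' + 2)) r ι hn hr hc).2
  rw [hB] at hD
  have hV := h4 (2 ^ (m' + 2)) r ι hn hr hc
  have hone := va_one h11 h12 (m' + 2) hs ι hι
  obtain ⟨z, hz⟩ := INT.tht_zpow (sz (2 ^ (m' + 2)) ι) r
  rw [hz] at hE
  simp only [hV] at hE
  set d := dlt (QD (sz (2 ^ (m' + 2)) ι)) r with hd
  set θ : DualNumber ℂ := 1 - TrivSqZeroExt.inr (Th (2 ^ (m' + 2)) ι 1 0) with hθ
  set γ : ℂ := 1 / (2 * ((2 ^ (m' + 2) : ℕ) : ℂ)) with hγ
  have hγ0 : γ ≠ 0 := by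
    rw [hγ]
    have : ((2 ^ (m' + 2) : ℕ) : ℂ) ≠ 0 := by exact_mod_cast (by positivity : 2 ^ (m' + 2) ≠ 0)
    exact one_div_ne_zero (mul_ne_zero two_ne_zero this)
  set n : ℕ := 2 ^ (m' + 2) with hndef
  -- the unit `c = d θ`
  have hD' : (d * θ) ^ 2 * TrivSqZeroExt.inl γ = 1 := by rw [← hD]; ring
  have hDf := congrArg TrivSqZeroExt.fst hD'
  rw [TrivSqZeroExt.fst_mul, TrivSqZeroExt.fst_pow, TrivSqZeroExt.fst_mul,
    TrivSqZeroExt.fst_one, TrivSqZeroExt.fst_inl] at hDf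
  have hθf : θ.fst = 1 := by rw [hθ]; simp
  rw [hθf, mul_one] at hDf
  have hdf : d.fst ≠ 0 := by
    intro h0
    rw [h0] at hDf
    simp at hDf
  have hcf : (d * θ).fst ≠ 0 := by
    rw [TrivSqZeroExt.fst_mul, hθf, mul_one]
    exact hdf
  have hlc : lg (d * θ) = 0 := by
    have h6 := congrArg lg hD'
    rw [lg_mul (fst_pow_ne hcf 2) (by rw [TrivSqZeroExt.fst_inl]; exact hγ0), lg_pow hcf, lg_inl,
      lg_one, add_zero] at h6
    rcases mul_eq_zero.1 h6 with h7 | h7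
    · norm_num at h7
    · exact h7
  -- the values
  set va : Tr → DualNumber ℂ := fun t =>
    TrivSqZeroExt.inl (Va n ι t).1 + TrivSqZeroExt.inr (Va n ι t).2 with hva
  have hvaf : ∀ t, (va t).fst = (Va n ι t).1 := fun t => by simp [hva]
  have hval : ∀ t, lg (va t) = (Va n ι t).2 / (Va n ι t).1 := fun t => lg_va _
  set w : Tr → DualNumber ℂ := fun t =>
    d * (TrivSqZeroExt.inl γ * (d * θ) ^ nc t * va t) with hw
  have hE' : TrivSqZeroExt.inl ((z ^ m : ℂˣ) : ℂ) *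
      (1 + TrivSqZeroExt.inr ((m : ℂ) * ((r : ℂ) ^ 2 - (r : ℂ) / 2))) * (Ts.map w).prod =
      w (.pw 1) ^ Ts.length := hE
  have hwf : ∀ t, (w t).fst ≠ 0 ↔ (Va n ι t).1 ≠ 0 := by
    intro t
    have h6 : (w t).fst = (d.fst * (γ * (d * θ).fst ^ nc t)) * (Va n ι t).1 := by
      rw [hw]
      simp only [TrivSqZeroExt.fst_mul, TrivSqZeroExt.fst_pow, TrivSqZeroExt.fst_inl, hvaf]
      ring
    rw [h6, mul_ne_zero_iff]
    refine ⟨fun h => h.2, fun h => ⟨?_, h⟩⟩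
    exact mul_ne_zero hdf (mul_ne_zero hγ0 (pow_ne_zero _ hcf))
  have hw1 : (w (.pw 1)).fst ≠ 0 := (hwf _).2 hone
  have hall : ∀ t ∈ Ts, (w t).fst ≠ 0 := by
    have h6 := congrArg TrivSqZeroExt.fst hE'
    have h7 : (w (.pw 1) ^ Ts.length).fst ≠ 0 := fst_pow_ne hw1 _
    rw [← h6, TrivSqZeroExt.fst_mul] at h7
    have h8 := ne_of_fst_prod_ne (right_ne_zero_of_mul h7)
    exact fun t ht => h8 _ (List.mem_map.2 ⟨t, ht, rfl⟩)
  have hlw : ∀ t, (Va n ι t).1 ≠ 0 → lg (w t) = lg d + (Va n ι t).2 / (Va n ι t).1 := by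
    intro t ht
    rw [hw]
    have h6 : ((TrivSqZeroExt.inl γ : DualNumber ℂ) * (d * θ) ^ nc t).fst ≠ 0 := by
      rw [TrivSqZeroExt.fst_mul]
      exact mul_ne_zero (by rw [TrivSqZeroExt.fst_inl]; exact hγ0) (fst_pow_ne hcf _)
    have h7 : (va t).fst ≠ 0 := by rw [hvaf]; exact ht
    have h8 : ((TrivSqZeroExt.inl γ : DualNumber ℂ) * (d * θ) ^ nc t * va t).fst ≠ 0 := by
      rw [TrivSqZeroExt.fst_mul]
      exact mul_ne_zero h6 h7
    show lg (d * (TrivSqZeroExt.inl γ * (d * θ) ^ nc t * va t)) = _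
    rw [lg_mul hdf h8, lg_mul h6 h7,
      lg_mul (by rw [TrivSqZeroExt.fst_inl]; exact hγ0) (fst_pow_ne hcf _), lg_inl, lg_pow hcf,
      hlc, hval, mul_zero, add_zero, zero_add]
  have hVall : ∀ t ∈ Ts, (Va n ι t).1 ≠ 0 := fun t ht => (hwf t).1 (hall t ht)
  refine ⟨hone, hVall, ?_⟩
  have hP : (Ts.map w).prod.fst ≠ 0 := by
    refine fst_prod_ne fun x hx => ?_
    obtain ⟨t, ht, rfl⟩ := List.mem_map.1 hx
    exact hall t ht
  have h6 := congrArg lg hE'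
  have hzf : (TrivSqZeroExt.inl ((z ^ m : ℂˣ) : ℂ) : DualNumber ℂ).fst ≠ 0 := by
    rw [TrivSqZeroExt.fst_inl]
    exact Units.ne_zero _
  have hkf : (1 + TrivSqZeroExt.inr ((m : ℂ) * ((r : ℂ) ^ 2 - (r : ℂ) / 2)) :
      DualNumber ℂ).fst ≠ 0 := by simp
  have hkl : lg (1 + TrivSqZeroExt.inr ((m : ℂ) * ((r : ℂ) ^ 2 - (r : ℂ) / 2)) :
      DualNumber ℂ) = (m : ℂ) * ((r : ℂ) ^ 2 - (r : ℂ) / 2) := by simp [lg]
  rw [lg_mul (by rw [TrivSqZeroExt.fst_mul]; exact mul_ne_zero hzf hkf) hP, lg_mul hzf hkf,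
    lg_inl, hkl, zero_add, lg_pow hw1, lg_prod (by
      intro x hx
      obtain ⟨t, ht, rfl⟩ := List.mem_map.1 hx
      exact hall t ht), List.map_map, hlw _ hone] at h6
  have h7 : ∀ l : List Tr, (∀ t ∈ l, (Va n ι t).1 ≠ 0) →
      (l.map (lg ∘ w)).sum - (l.length : ℂ) * (lg d + (Va n ι (.pw 1)).2 / (Va n ι (.pw 1)).1) =
      (l.map fun t => (Va n ι t).2 / (Va n ι t).1 -
        (Va n ι (.pw 1)).2 / (Va n ι (.pw 1)).1).sum := by
    intro l
    induction l with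
    | nil => intro _; simp
    | cons a l ih =>
      intro hl
      rw [List.map_cons, List.map_cons, List.sum_cons, List.sum_cons,
        ← ih fun t ht => hl t (List.mem_cons_of_mem _ ht), Function.comp_apply,
        hlw a (hl a List.mem_cons_self), List.length_cons]
      push_cast
      ring
  rw [← h7 Ts hVall]
  linear_combination h6

end Pool.Agent.UB
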