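import Pool.Agent.UB.Stmts

/-!
Module LABL: the value of a tree on the labels. See PAPER.md in this folder.
-/

open Polynomial
open scoped BigOperators Real Matrix

namespace Pool.Agent.UB

open Pool.Agent.LibH11.Sliced Pool.Agent.MTR Pool.Agent.MT Pool.Agent.MTA Pool.Agent.UA
open Pool.Agent.TB hiding vec

namespace LablAux

variable {A : Type} [CommRing A]

/-- sums over the even labels -/
lemma sum_ev {r : ℕ} (f : Lb r → A) (hf : ∀ a : Lb r, a.par ≠ false → f a = 0) :
    ∑ a : Ev r, f a.1 = ∑ a : Lb r, f a := by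
  classical
  rw [← Finset.sum_subtype (Finset.univ.filter (fun x : Lb r => x.par = false)) (by simp) f]
  rw [Finset.sum_filter]
  refine Finset.sum_congr rfl fun a _ => ?_
  split_ifs with h
  · rfl
  · exact (hf a h).symm

/-- products of restricted matrices -/
lemma rs_mul (r : ℕ) (M N : Matrix (Lb r × Lb r) (Lb r × Lb r) A)
    (hM : ∀ p c : Lb r × Lb r, p.1.par = false → p.2.par = false →
      (c.1.par ≠ false ∨ c.2.par ≠ false) → M p c = 0) :
    rs r M * rs r N = rs r (M * N) := by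
  ext p c
  simp only [Matrix.mul_apply, rs, Fintype.sum_prod_type]
  have h1 := sum_ev (r := r) (fun x : Lb r => ∑ y : Ev r,
    M (p.1.1, p.2.1) (x, y.1) * N (x, y.1) (c.1.1, c.2.1)) (by
      intro a ha
      refine Finset.sum_eq_zero fun y _ => ?_
      rw [hM _ _ p.1.2 p.2.2 (Or.inl ha), zero_mul])
  rw [h1]
  refine Finset.sum_congr rfl fun x _ => ?_
  exact sum_ev (r := r) (fun y : Lb r =>
    M (p.1.1, p.2.1) (x, y) * N (x, y) (c.1.1, c.2.1)) (by
      intro a ha
      rw [hM _ _ p.1.2 p.2.2 (Or.inr ha), zero_mul])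

/-- products of admissible polynomials -/
lemma okp_mul (Q : QP A) (r : ℕ) (P P' : A[X]) (h : Okp Q r P) (h' : Okp Q r P') :
    Okp Q r (P * P') := by
  refine ⟨fun m hm ho => ?_, fun p c hp1 hp2 hc => ?_⟩
  · rw [eval_mul, h.odd m hm ho, zero_mul]
  · rw [map_mul, Matrix.mul_apply]
    refine Finset.sum_eq_zero fun z _ => ?_
    by_cases hz : z.1.par ≠ false ∨ z.2.par ≠ false
    · rw [h.even p z hp1 hp2 hz, zero_mul]
    · push Not at hz
      rw [h'.even z c hz.1 hz.2 hc, mul_zero]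

/-- rows of odd total parity vanish -/
lemma row_odd (h1 : PAR_Stmt) (hs : SPEC_Stmt) (hf : FC_Stmt) [IsDomain A] [CharZero A]
    (Q : QP A) (r : ℕ) (hG : Q.Gen r) (P : A[X]) (h : Okp Q r P) (p c : Lb r × Lb r)
    (hp : p.1.par ≠ p.2.par) : (aeval (Im Q r) P) p c = 0 := by
  obtain ⟨hev, hfc⟩ := hf A Q r hG
  have e : aeval (Im Q r) (trc Q r P) = aeval (Im Q r) P := by
    refine hfc _ (Im Q r) (hs A Q r hG).1 _ _ fun m hm => ?_
    rw [trc, hev _ m hm]
    split_ifs with hm2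
    · rfl
    · exact (h.odd m hm hm2).symm
  have := (h1 A Q r hG).2 inferInstance inferInstance P p c
  rw [if_neg hp, e] at this
  exact this

/-- the closure -/
lemma closure (h1 : PAR_Stmt) (he : EMB_Stmt) (hs : SPEC_Stmt) (hf : FC_Stmt) (hc : CUP_Stmt)
    (hl : CLC_Stmt) [IsDomain A] [CharZero A] (Q : QP A) (r : ℕ) (hr : Even r) (hG : Q.Gen r)
    (hR : Q.Reg r) (P : A[X]) (h : Okp Q r P) :
    clo (ld Q r) (rs r (aeval (Im Q r) P)) ⟨Lb.zero r, Lb.par_zero r⟩ =
      dlt Q r * cval Q r P := by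
  have hrow := row_odd h1 hs hf Q r hG P h
  have hcup := hc A Q r hr
  rw [← (hl A Q r hr hG hR).1 P]
  have hev := h.even
  generalize hM : aeval (Im Q r) P = M at hrow hev ⊢
  have e12 : aeval (emb12 (Im Q r)) P = emb12 M := by
    rw [← hM]
    exact ((he A (Lb r)).2.2.2.2 (Im Q r) P).1
  rw [e12]
  have hmv : ∀ b c : Lb r, (emb12 M *ᵥ Omf Q r (del r)) (Lb.zero r, b, c) =
      ∑ v, M (Lb.zero r, b) (Lb.zero r, v) * cupv Q r v c := by
    intro b c
    simp only [Matrix.mulVec, dotProduct, Fintype.sum_prod_type, emb12, Omf, del]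
    rw [Finset.sum_eq_single (Lb.zero r)]
    · refine Finset.sum_congr rfl fun v _ => ?_
      rw [Finset.sum_eq_single c]
      · simp
      · intro w _ hw
        rw [if_neg (fun hh => hw hh.symm), zero_mul]
      · intro hh
        exact absurd (Finset.mem_univ _) hh
    · intro u _ hu
      refine Finset.sum_eq_zero fun v _ => Finset.sum_eq_zero fun w _ => ?_
      rw [if_neg hu, zero_mul, mul_zero]
    · intro hh
      exact absurd (Finset.mem_univ _) hh
  simp only [hmv]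
  -- the sum over the even labels
  have s1 : ∀ b c : Lb r, b.par = false →
      ∑ v : Ev r, capv Q r b c * M (Lb.zero r, b) (Lb.zero r, v.1) * cupv Q r v.1 c =
      capv Q r b c * ∑ v, M (Lb.zero r, b) (Lb.zero r, v) * cupv Q r v c := by
    intro b c hb
    rw [Finset.mul_sum]
    rw [sum_ev (r := r) (fun v : Lb r =>
      capv Q r b c * M (Lb.zero r, b) (Lb.zero r, v) * cupv Q r v c) (by
        intro a ha
        rw [hev (Lb.zero r, b) (Lb.zero r, a) (Lb.par_zero r) hb (Or.inr ha), mul_zero, zero_mul])]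
    refine Finset.sum_congr rfl fun v _ => ?_
    ring
  have s2 : ∀ b : Lb r, b.par = false →
      ∑ c : Ev r, capv Q r b c.1 * ∑ v, M (Lb.zero r, b) (Lb.zero r, v) * cupv Q r v c.1 =
      ∑ c, capv Q r b c * ∑ v, M (Lb.zero r, b) (Lb.zero r, v) * cupv Q r v c := by
    intro b hb
    refine sum_ev (r := r) (fun c : Lb r =>
      capv Q r b c * ∑ v, M (Lb.zero r, b) (Lb.zero r, v) * cupv Q r v c) ?_
    intro c hc'
    have hne : c ≠ b.compl := by
      intro hh
      apply hc'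
      rw [hh, hcup.2.2.2.2 b, hb]
    rw [(hcup.1 b c hne).2, zero_mul]
  have s3 : ∑ b : Ev r, ∑ c, capv Q r b.1 c *
        ∑ v, M (Lb.zero r, b.1) (Lb.zero r, v) * cupv Q r v c =
      ∑ b, ∑ c, capv Q r b c * ∑ v, M (Lb.zero r, b) (Lb.zero r, v) * cupv Q r v c := by
    refine sum_ev (r := r) (fun b : Lb r => ∑ c, capv Q r b c *
        ∑ v, M (Lb.zero r, b) (Lb.zero r, v) * cupv Q r v c) ?_
    intro b hb
    refine Finset.sum_eq_zero fun c _ => ?_
    have : ∑ v, M (Lb.zero r, b) (Lb.zero r, v) * cupv Q r v c = 0 := by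
      refine Finset.sum_eq_zero fun v _ => ?_
      rw [hrow (Lb.zero r, b) (Lb.zero r, v) (by
        show (Lb.zero r).par ≠ b.par
        rw [Lb.par_zero r]
        exact fun hh => hb hh.symm), zero_mul]
    rw [this, mul_zero]
  rw [← s3]
  show (∑ a : Ev r, ∑ b : Ev r, ∑ x : Ev r, capv Q r a.1 b.1 *
    M (Lb.zero r, a.1) (Lb.zero r, x.1) * cupv Q r x.1 b.1) = _
  refine Finset.sum_congr rfl fun b _ => ?_
  rw [← s2 b.1 b.2]
  refine Finset.sum_congr rfl fun c _ => ?_
  exact s1 b.1 c.1 b.2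

/-- the value of a tree on the labels -/
lemma main (h2 : HTL_Stmt) (h3 : ROTL_Stmt) [IsDomain A] [CharZero A] (Q : QP A) (r : ℕ)
    (hr : Even r) (hG : Q.Gen r) (hR : Q.Reg r) (t : Tr) :
    mt (ld Q r) t = rs r (aeval (Im Q r) (tp Q r t)) ∧ Okp Q r (tp Q r t) := by
  induction t with
  | pw e => exact h2 A Q r hG e
  | cons a b iha ihb =>
    have hro := h3 A Q r hr hG hR _ iha.2
    refine ⟨?_, ?_⟩
    · show mt (ld Q r) b * rot (ld Q r) (mt (ld Q r) a) =
        rs r (aeval (Im Q r) (tp Q r b * rotP Q r (tp Q r a)))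
      rw [ihb.1, iha.1, hro.1, map_mul]
      exact rs_mul r _ _ ihb.2.even
    · exact okp_mul Q r _ _ ihb.2 hro.2

end LablAux

/-- LABL: the value of a tree on the labels. -/
theorem t_LABL (h1 : PAR_Stmt) (h2 : HTL_Stmt) (h3 : ROTL_Stmt) (he : EMB_Stmt) (hs : SPEC_Stmt)
    (hf : FC_Stmt) (hc : CUP_Stmt) (hl : CLC_Stmt) : LABL_Stmt := by
  intro A _ _ _ Q r hr hG hR t
  obtain ⟨ha, hb⟩ := LablAux.main h2 h3 Q r hr hG hR t
  refine ⟨ha, hb, ?_⟩
  rw [ha]
  exact LablAux.closure h1 he hs hf hc hl Q r hr hG hR _ hb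

end Pool.Agent.UB
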