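import Pool.Agent.UB.Stmts

/-!
The logarithmic derivative of the value of a tree (module LGUV).
-/

open Polynomial
open scoped BigOperators Real

namespace Pool.Agent.UB

open Pool.Agent.LibH11.Sliced Pool.Agent.MTR Pool.Agent.MT Pool.Agent.MTA Pool.Agent.UA
open Pool.Agent.TB hiding vec

theorem Lguv.stab_one (he : EGO_Stmt) (n : ℕ) [NeZero n] (ι : ℤ) (hι : IsCoprime ι (2 * n : ℤ)) :
    Stab n ι (0, 1) 1 := by
  intro b
  have h := (he n ι hι).2.2.2.2.2.2 b
  simpa using h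

theorem Lguv.addv_one (v : ℤ × ℤ) : addv (0, 1) v = v := by
  ext <;> simp [addv]

theorem t_LGUV (h1 : DERU_Stmt) (h2 : THX_Stmt) (h3 : STU_Stmt) (he : EGO_Stmt) : LGUV_Stmt := by
  intro n _ ι hn hι t κ hκ
  have hs1 := Lguv.stab_one he n ι hι
  have hadd : addv (0, 1) (vec t) = vec t := Lguv.addv_one (vec t)
  have hst := (h3 n ι hι t).2.2
  have hd := h1 n ι hn hι t (0, 1) 1 hs1 κ (by rw [hadd]; exact hκ)
  have ht := (h2 n ι hn hι (0, 1) (vec t) 1 _ hs1 hst κ (by rw [hadd]; exact hκ)).2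
  rw [hadd] at ht
  simp only [Va, LU, TL]
  rw [hd, ht]
  ring

end Pool.Agent.UB
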