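import Pool.Agent.UB.Stmts
import Pool.Agent.MT.Natm

/-!
Modules NATU and TRF: base change and transfer to the dual numbers for trees.
-/

open Polynomial
open scoped BigOperators

namespace Pool.Agent.UB

open Pool.Agent.LibH11.Sliced Pool.Agent.MTR Pool.Agent.MT Pool.Agent.MTA Pool.Agent.UA
open Pool.Agent.TB hiding vec

namespace NATU

variable {A B : Type} [CommRing A] [CommRing B] (φ : A →+* B)

theorem trc_map (Q : QP A) (r : ℕ) (h : Q.Gen r) (P : A[X]) :
    trc (Q.map φ) r (P.map φ) = (trc Q r P).map φ := by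
  unfold trc
  refine NAT.interp_map φ Q r h _ _ fun m => ?_
  by_cases hm : Even m
  · rw [if_pos hm, if_pos hm, NAT.lam_map, Polynomial.eval_map_apply]
  · rw [if_neg hm, if_neg hm, map_zero]

theorem FPe_map (Q : QP A) (r : ℕ) (h : Q.Gen r) (e : ℤ) :
    FPe (Q.map φ) r e = (FPe Q r e).map φ := by
  unfold FPe
  refine NAT.interp_map φ Q r h _ _ fun m => ?_
  by_cases hm : Even m
  · rw [if_pos hm, if_pos hm, NATM.Fu_map, ← map_zpow]
    rfl
  · rw [if_neg hm, if_neg hm, map_zero]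

theorem rotP_map (Q : QP A) (r : ℕ) (h : Q.Gen r) (P : A[X]) :
    rotP (Q.map φ) r (P.map φ) = (rotP Q r P).map φ := by
  unfold rotP
  rw [← trc_map φ Q r h, Polynomial.map_mul, Polynomial.map_C, NATM.dlt_map, ← NAT.wop_map,
    NAT.two_map, NAT.lam_map, NAT.lam_map, NATM.basis_map φ Q r h]
  rfl

theorem tp_map (Q : QP A) (r : ℕ) (h : Q.Gen r) : ∀ t : Tr,
    tp (Q.map φ) r t = (tp Q r t).map φ
  | .pw e => by
      rw [tp, tp, FPe_map φ Q r h]
  | .cons a b => by
      rw [tp, tp, tp_map Q r h a, tp_map Q r h b, rotP_map φ Q r h, Polynomial.map_mul]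

end NATU

open NATU in
/-- **Module NATU.** -/
theorem t_NATU : NATU_Stmt := by
  intro A B _ _ φ Q r h
  constructor
  · intro t
    rw [map_mul, NATM.dlt_map, tp_map φ Q r h, NATM.cval_map φ Q r h]
  · intro m
    rw [NATM.tht_map, ← map_zpow]
    rfl

/-- **Module TRF.** -/
theorem t_TRF (h1 : NATU_Stmt) (h2 : OTG_Stmt) (h5 : CLC_Stmt) (hgps : GPS_Stmt) : TRF_Stmt := by
  intro r s0 hr hg
  obtain ⟨O, iO, iD, Q, φ, ψ, hG, hφ, hQφ, hQψ⟩ := h2 r s0 hg
  obtain ⟨a1, a2⟩ := h1 O _ φ Q r hG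
  obtain ⟨b1, b2⟩ := h1 O _ ψ Q r hG
  have c1 : ∀ Ts : List Tr, φ (Ts.map fun t => dlt Q r * cval Q r (tp Q r t)).prod =
      (Ts.map fun t => dlt QPS r * cval QPS r (tp QPS r t)).prod := by
    intro Ts
    rw [map_list_prod, List.map_map]
    congr 1
    refine List.map_congr_left fun t _ => ?_
    rw [Function.comp_apply, a1, hQφ]
  have c2 : ∀ Ts : List Tr, ψ (Ts.map fun t => dlt Q r * cval Q r (tp Q r t)).prod =
      (Ts.map fun t => dlt (QD s0) r * cval (QD s0) r (tp (QD s0) r t)).prod := by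
    intro Ts
    rw [map_list_prod, List.map_map]
    congr 1
    refine List.map_congr_left fun t _ => ?_
    rw [Function.comp_apply, b1, hQψ]
  constructor
  · intro m Ts Ts' h
    have k : ((tht Q r ^ m : Oˣ) : O) * (Ts.map fun t => dlt Q r * cval Q r (tp Q r t)).prod =
        (Ts'.map fun t => dlt Q r * cval Q r (tp Q r t)).prod := hφ (by
      rw [map_mul, a2, hQφ, c1, c1, h])
    have k2 := congrArg ψ k
    rw [map_mul, b2, hQψ, c2, c2] at k2
    exact k2
  · have d1 : ∀ (B : Type) [CommRing B] (f : O →+* B),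
        f (dlt Q r ^ 2 * cval Q r (Q.basis r r)) =
          dlt (Q.map f) r ^ 2 * cval (Q.map f) r ((Q.map f).basis r r) := by
      intro B _ f
      rw [map_mul, map_pow, NATM.dlt_map, NATM.basis_map f Q r hG, NATM.cval_map f Q r hG]
    have k : dlt Q r ^ 2 * cval Q r (Q.basis r r) = 1 := hφ (by
      rw [d1, hQφ, map_one]
      exact (h5 _ QPS r hr (hgps r).1 (hgps r).2).2)
    rw [← hQψ, ← d1, k, map_one]

end Pool.Agent.UB
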