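import Pool.Agent.UB.Stmts

/-!
# The orientations of the closure of a knotted tree
-/

open scoped BigOperators

namespace Pool.Agent.UB

open Pool.Agent.LibH11.Sliced Pool.Agent.MTR Pool.Agent.MT Pool.Agent.MTA Pool.Agent.UA
open Pool.Agent.TB hiding vec

namespace Ori

variable {A : Type} [CommRing A] (u : Aˣ)

/-- matrices of type E -/
def TE (M : Matrix (Bool × Bool) (Bool × Bool) A) : Prop :=
  ∃ f : Bool → Bool → ℤ, ∀ p1 p2 c1 c2, M (p1, p2) (c1, c2) =
    if p1 = c1 ∧ p2 = c2 then ((u ^ f c1 c2 : Aˣ) : A) else 0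

/-- matrices of type X -/
def TX (M : Matrix (Bool × Bool) (Bool × Bool) A) : Prop :=
  ∃ f : Bool → Bool → ℤ, ∀ p1 p2 c1 c2, M (p1, p2) (c1, c2) =
    if p1 = c2 ∧ p2 = c1 then ((u ^ f c1 c2 : Aˣ) : A) else 0

/-- matrices of type H -/
def TH (M : Matrix (Bool × Bool) (Bool × Bool) A) : Prop :=
  ∃ f : Bool → Bool → ℤ, ∀ p1 p2 c1 c2, M (p1, p2) (c1, c2) =
    if p2 = !p1 ∧ c2 = !c1 then ((u ^ f p1 c1 : Aˣ) : A) else 0

theorem mul_apply (M N : Matrix (Bool × Bool) (Bool × Bool) A) (p c : Bool × Bool) :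
    (M * N) p c = M p (true, true) * N (true, true) c + M p (true, false) * N (true, false) c +
      (M p (false, true) * N (false, true) c + M p (false, false) * N (false, false) c) := by
  rw [Matrix.mul_apply, Fintype.sum_prod_type]
  simp only [Fintype.sum_bool]

variable {u}
variable {M N : Matrix (Bool × Bool) (Bool × Bool) A}

theorem EE (hM : TE u M) (hN : TE u N) : TE u (M * N) := by
  obtain ⟨f, hf⟩ := hM
  obtain ⟨g, hg⟩ := hN
  refine ⟨fun a b => f a b + g a b, fun p1 p2 c1 c2 => ?_⟩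
  rw [mul_apply, hf, hf, hf, hf, hg, hg, hg, hg]
  cases p1 <;> cases p2 <;> cases c1 <;> cases c2 <;> simp [zpow_add]

theorem XE (hM : TX u M) (hN : TE u N) : TX u (M * N) := by
  obtain ⟨f, hf⟩ := hM
  obtain ⟨g, hg⟩ := hN
  refine ⟨fun a b => f a b + g a b, fun p1 p2 c1 c2 => ?_⟩
  rw [mul_apply, hf, hf, hf, hf, hg, hg, hg, hg]
  cases p1 <;> cases p2 <;> cases c1 <;> cases c2 <;> simp [zpow_add]

theorem EX (hM : TE u M) (hN : TX u N) : TX u (M * N) := by
  obtain ⟨f, hf⟩ := hM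
  obtain ⟨g, hg⟩ := hN
  refine ⟨fun a b => f b a + g a b, fun p1 p2 c1 c2 => ?_⟩
  rw [mul_apply, hf, hf, hf, hf, hg, hg, hg, hg]
  cases p1 <;> cases p2 <;> cases c1 <;> cases c2 <;> simp [zpow_add]

theorem XX (hM : TX u M) (hN : TX u N) : TE u (M * N) := by
  obtain ⟨f, hf⟩ := hM
  obtain ⟨g, hg⟩ := hN
  refine ⟨fun a b => f b a + g a b, fun p1 p2 c1 c2 => ?_⟩
  rw [mul_apply, hf, hf, hf, hf, hg, hg, hg, hg]
  cases p1 <;> cases p2 <;> cases c1 <;> cases c2 <;> simp [zpow_add]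

theorem HE (hM : TH u M) (hN : TE u N) : TH u (M * N) := by
  obtain ⟨f, hf⟩ := hM
  obtain ⟨g, hg⟩ := hN
  refine ⟨fun a b => f a b + g b (!b), fun p1 p2 c1 c2 => ?_⟩
  rw [mul_apply, hf, hf, hf, hf, hg, hg, hg, hg]
  cases p1 <;> cases p2 <;> cases c1 <;> cases c2 <;> simp [zpow_add]

theorem HX (hM : TH u M) (hN : TX u N) : TH u (M * N) := by
  obtain ⟨f, hf⟩ := hM
  obtain ⟨g, hg⟩ := hN
  refine ⟨fun a b => f a (!b) + g b (!b), fun p1 p2 c1 c2 => ?_⟩
  rw [mul_apply, hf, hf, hf, hf, hg, hg, hg, hg]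
  cases p1 <;> cases p2 <;> cases c1 <;> cases c2 <;> simp [zpow_add]

theorem EH (hM : TE u M) (hN : TH u N) : TH u (M * N) := by
  obtain ⟨f, hf⟩ := hM
  obtain ⟨g, hg⟩ := hN
  refine ⟨fun a b => f a (!a) + g a b, fun p1 p2 c1 c2 => ?_⟩
  rw [mul_apply, hf, hf, hf, hf, hg, hg, hg, hg]
  cases p1 <;> cases p2 <;> cases c1 <;> cases c2 <;> simp [zpow_add]

theorem XH (hM : TX u M) (hN : TH u N) : TH u (M * N) := by
  obtain ⟨f, hf⟩ := hM
  obtain ⟨g, hg⟩ := hN
  refine ⟨fun a b => f (!a) a + g (!a) b, fun p1 p2 c1 c2 => ?_⟩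
  rw [mul_apply, hf, hf, hf, hf, hg, hg, hg, hg]
  cases p1 <;> cases p2 <;> cases c1 <;> cases c2 <;> simp [zpow_add]

/-- the rotated matrix -/
theorem rot_apply (p1 p2 c1 c2 : Bool) :
    rot (od u) M (p1, p2) (c1, c2) = M (p2, !c2) (!p1, c1) := by
  unfold rot od
  simp only [Fintype.sum_bool]
  cases p1 <;> cases p2 <;> cases c1 <;> cases c2 <;> simp

theorem rotE (hM : TE u M) : TH u (rot (od u) M) := by
  obtain ⟨f, hf⟩ := hM
  refine ⟨fun a b => f (!a) b, fun p1 p2 c1 c2 => ?_⟩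
  rw [rot_apply, hf]
  cases p1 <;> cases p2 <;> cases c1 <;> cases c2 <;> simp

theorem rotX (hM : TX u M) : TX u (rot (od u) M) := by
  obtain ⟨f, hf⟩ := hM
  refine ⟨fun a b => f (!b) a, fun p1 p2 c1 c2 => ?_⟩
  rw [rot_apply, hf]
  cases p1 <;> cases p2 <;> cases c1 <;> cases c2 <;> simp

theorem rotH (hM : TH u M) : TE u (rot (od u) M) := by
  obtain ⟨f, hf⟩ := hM
  refine ⟨fun a b => f b (!a), fun p1 p2 c1 c2 => ?_⟩
  rw [rot_apply, hf]
  cases p1 <;> cases p2 <;> cases c1 <;> cases c2 <;> simp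

theorem sgX (e : Bool) : TX u (sg (od u) e) := by
  refine ⟨fun a b => if a = b then (if e then 1 else -1) else 0, fun p1 p2 c1 c2 => ?_⟩
  unfold sg od
  cases e <;> cases p1 <;> cases p2 <;> cases c1 <;> cases c2 <;> simp

theorem powsg (e : Bool) (k : ℕ) :
    (Even k → TE u (sg (od u) e ^ k)) ∧ (Odd k → TX u (sg (od u) e ^ k)) := by
  induction k with
  | zero =>
    refine ⟨fun _ => ⟨fun _ _ => 0, fun p1 p2 c1 c2 => ?_⟩, fun h => absurd h (by decide)⟩
    rw [pow_zero, Matrix.one_apply]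
    cases p1 <;> cases p2 <;> cases c1 <;> cases c2 <;> simp
  | succ k ih =>
    rw [pow_succ]
    refine ⟨fun h => ?_, fun h => ?_⟩
    · exact XX (ih.2 (by rcases Nat.even_or_odd k with h1 | h1
                         · exact absurd h (by rw [Nat.even_add_one]; exact fun h2 => h2 h1)
                         · exact h1)) (sgX e)
    · exact EX (ih.1 (by rcases Nat.even_or_odd k with h1 | h1
                         · exact h1
                         · exact absurd h (by rw [Nat.odd_add_one]; exact fun h2 => h2 h1)))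
        (sgX e)

theorem par1 (a p b q : ℤ) (h : Even (-p * q + b * a)) (k : Odd (a * q)) :
    Odd a ∧ Odd q ∧ ((Even p ∧ Even b) ∨ (Odd p ∧ Odd b)) := by
  simp only [← Int.not_even_iff_odd, Int.even_add, Int.even_mul, even_neg] at *
  tauto

theorem par2 (a p b q : ℤ) (h : Odd (-p * q + b * a)) (k : Odd (a * q)) :
    Odd a ∧ Odd q ∧ ((Even p ∧ Odd b) ∨ (Odd p ∧ Even b)) := by
  simp only [← Int.not_even_iff_odd, Int.even_add, Int.even_mul, even_neg] at *
  tauto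

theorem par3 (a p b q : ℤ) (h : Odd (-p * q + b * a)) (k : Even (a * q)) :
    (Even a ∧ Odd p ∧ Odd q ∧ (Even b ∨ Odd b)) ∨
      (Odd a ∧ Even q ∧ Odd b ∧ (Even p ∨ Odd p)) := by
  simp only [← Int.not_even_iff_odd, Int.even_add, Int.even_mul, even_neg] at *
  tauto

theorem main (t : Tr) :
    (Even (vec t).1 → Odd (vec t).2 → TE u (mt (od u) t)) ∧
    (Odd (vec t).1 → Odd (vec t).2 → TX u (mt (od u) t)) ∧
    (Odd (vec t).1 → Even (vec t).2 → TH u (mt (od u) t)) := by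
  induction t with
  | pw e =>
    have h1 : vec (.pw e) = (-e, 1) := rfl
    rw [h1]
    refine ⟨fun h _ => ?_, fun h _ => ?_, fun _ h => absurd h (show ¬ Even (1 : ℤ) by decide)⟩
    · exact (powsg _ _).1 (by rw [Int.natAbs_even]; exact (even_neg.1 h))
    · exact (powsg _ _).2 (by rw [Int.natAbs_odd]; exact (odd_neg.1 h))
  | cons a b iha ihb =>
    obtain ⟨a1, a2, a3⟩ := iha
    obtain ⟨b1, b2, b3⟩ := ihb
    have h1 : vec (.cons a b) = (-(vec a).2 * (vec b).2 + (vec b).1 * (vec a).1,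
      (vec a).1 * (vec b).2) := rfl
    have h2 : mt (od u) (.cons a b) = mt (od u) b * rot (od u) (mt (od u) a) := rfl
    rw [h1, h2]
    refine ⟨fun h k => ?_, fun h k => ?_, fun h k => ?_⟩
    · obtain ⟨x, y, ⟨z, w⟩ | ⟨z, w⟩⟩ := par1 _ _ _ _ h k
      · exact EE (b1 w y) (rotH (a3 x z))
      · exact XX (b2 w y) (rotX (a2 x z))
    · obtain ⟨x, y, ⟨z, w⟩ | ⟨z, w⟩⟩ := par2 _ _ _ _ h k
      · exact XE (b2 w y) (rotH (a3 x z))
      · exact EX (b1 w y) (rotX (a2 x z))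
    · rcases par3 _ _ _ _ h k with ⟨x, y, z, w | w⟩ | ⟨x, y, z, w | w⟩
      · exact EH (b1 w z) (rotE (a1 x y))
      · exact XH (b2 w z) (rotE (a1 x y))
      · exact HE (b3 z y) (rotH (a3 x w))
      · exact HX (b3 z y) (rotX (a2 x w))

/-- the closure -/
theorem clo_apply : clo (od u) M true = M (true, true) (true, true) + M (true, false) (true, false) := by
  unfold clo od
  simp only [Fintype.sum_bool]
  simp

end Ori

open Ori in
theorem t_ORI : ORI_Stmt := by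
  intro A _ u t ht
  obtain ⟨-, h2, h3⟩ := main (u := u) t
  rw [clo_apply]
  rcases Int.even_or_odd (vec t).2 with h | h
  · obtain ⟨f, hf⟩ := h3 ht h
    refine ⟨f true true, ?_⟩
    rw [hf, hf]
    simp
  · obtain ⟨f, hf⟩ := h2 ht h
    refine ⟨f true true, ?_⟩
    rw [hf, hf]
    simp

end Pool.Agent.UB
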