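import Pool.Agent.UB.Stmts
import Pool.Agent.MT.Prt

/-!
Finite type invariants detect the unknot among the arborescent knots (MP_31fd3b_gt, Theorem U):
module PAR (the total parity). See PAPER.md in this folder, section A.
-/

open Polynomial
open scoped BigOperators Real Matrix

namespace Pool.Agent.UB

open Pool.Agent.LibH11.Sliced Pool.Agent.MTR Pool.Agent.MT Pool.Agent.MTA Pool.Agent.UA
open Pool.Agent.TB hiding vec

namespace PARM

section

variable {A : Type} [CommRing A]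

theorem eval_sg (x : A) (P : A[X]) : (MT.PRT.sg A P).eval x = P.eval (-x) := by
  have h : (Polynomial.aeval x : A[X] →ₐ[A] A).comp (MT.PRT.sg A) = Polynomial.aeval (-x) := by
    refine Polynomial.algHom_ext ?_
    rw [AlgHom.comp_apply, MT.PRT.sg_X, map_neg, aeval_X, aeval_X]
  have h1 := AlgHom.congr_fun h P
  rw [AlgHom.comp_apply, Polynomial.coe_aeval_eq_eval, Polynomial.coe_aeval_eq_eval] at h1
  exact h1

theorem aeval_sg {E : Type} [Ring E] [Algebra A E] (M : E) (P : A[X]) :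
    aeval M (MT.PRT.sg A P) = aeval (-M) P := by
  unfold MT.PRT.sg
  rw [← Polynomial.aeval_algHom_apply, map_neg, aeval_X]

/-- `f_(-m) = (-1)^m f_m` -/
theorem fu_neg (Q : QP A) (m : ℤ) :
    (Q.fu (-m) : A) = (if Even m then (1 : A) else -1) * (Q.fu m : A) := by
  have h1 : Q.i ^ (2 : ℤ) = -1 := by
    ext
    rw [zpow_two]
    exact Q.hi
  have h2 : Q.i ^ (-m) = (if Even m then (1 : Aˣ) else -1) * Q.i ^ m := by
    by_cases hm : Even m
    · obtain ⟨k, rfl⟩ := hm
      rw [if_pos ⟨k, rfl⟩, one_mul, ← two_mul, show -(2 * k) = 2 * -k from by ring, zpow_mul,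
        zpow_mul, h1, zpow_neg, ← inv_zpow, inv_neg_one]
    · obtain ⟨k, rfl⟩ := Int.not_even_iff_odd.1 hm
      rw [if_neg hm, show -(2 * k + 1) = 2 * (-k - 1) + 1 from by ring, zpow_add, zpow_add,
        zpow_mul, zpow_mul, h1, ← mul_assoc]
      congr 1
      have h3 : ((-1 : Aˣ) ^ k) * ((-1 : Aˣ) ^ k) = 1 := by
        rw [← mul_zpow, neg_one_mul, neg_neg, one_zpow]
      have h4 : ((-1 : Aˣ) ^ (-k)) = (-1 : Aˣ) ^ k := by
        rw [zpow_neg, ← inv_zpow, inv_neg_one]
      rw [zpow_sub, h4, zpow_one, inv_neg_one, mul_comm]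
  unfold QP.fu
  rw [neg_sq, Units.val_mul, Units.val_mul, h2, Units.val_mul, mul_assoc]
  congr 1
  by_cases hm : Even m
  · rw [if_pos hm, if_pos hm, Units.val_one]
  · rw [if_neg hm, if_neg hm, Units.val_neg, Units.val_one]

theorem sb_prod (b1 b2 : Bool) :
    MT.PRT.sb A b1 * MT.PRT.sb A b2 = if b1 = b2 then 1 else -1 := by
  cases b1 <;> cases b2 <;> simp [MT.PRT.sb]

end

end PARM

open PARM in
/-- the total parity -/
theorem t_PAR (hb : BRK_Stmt) (he : EMB_Stmt) (hs : SPEC_Stmt) (hf : FC_Stmt) (hp : RPR_Stmt) :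
    PAR_Stmt := by
  intro A _ Q r hg
  have hlam : ∀ m, Q.lam (-m) = -Q.lam m := fun m => by
    unfold QP.lam
    rw [(hb A Q).2.2.1, mul_neg]
  have hI2 : ∀ p c : Lb r × Lb r, p.2.par = c.2.par → Im Q r p c = 0 := fun p c h =>
    TB.RPR.par_Im Q r p.1 p.2 c.1 c.2 (Or.inr h)
  obtain ⟨s1, s2, -⟩ := hs A Q r hg
  obtain ⟨f1, f2⟩ := hf A Q r hg
  obtain ⟨⟨-, -, r3, -⟩, r5, -⟩ := hp A Q r
  set E : A[X] := Q.interp r fun m => if Even m then (1 : A) else -1 with hE
  set P0 : A[X] := Q.interp r fun m => (Q.fu m : A) with hP0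
  -- the value of `E`
  have h1 : aeval (Im Q r) (MT.PRT.sg A P0) = aeval (Im Q r) (E * P0) := by
    refine f2 _ _ s1 _ _ fun m hm => ?_
    have hm' : -m ∈ Finset.Icc (-(r : ℤ)) r := by
      rw [Finset.mem_Icc] at hm ⊢
      constructor <;> linarith [hm.1, hm.2]
    rw [eval_sg, ← hlam, hP0, f1 _ _ hm', eval_mul, hE, f1 _ m hm, f1 _ m hm, fu_neg]
  have h2 : ∀ p c, (aeval (Im Q r) E * Rm Q r) p c =
      MT.PRT.sb A p.2.par * MT.PRT.sb A c.2.par * Rm Q r p c := by
    intro p c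
    have h3 := MT.PRT.aeval_neg (Im Q r) (fun p : Lb r × Lb r => p.2.par) hI2 P0 p c
    rw [← aeval_sg, h1, map_mul, s2] at h3
    exact h3
  set D : Matrix (Lb r × Lb r) (Lb r × Lb r) A :=
    Matrix.diagonal fun p => MT.PRT.sb A p.1.par * MT.PRT.sb A p.2.par with hD
  have h4 : aeval (Im Q r) E * Rm Q r = D * Rm Q r := by
    ext p c
    rw [h2, hD, Matrix.diagonal_mul]
    by_cases h5 : p.1.par = c.2.par
    · rw [h5]
      ring
    · have h6 : Rm Q r p c = 0 := (r5 p.1 p.2 c.1 c.2 (Or.inl h5)).1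
      rw [h6, mul_zero, mul_zero]
  have h7 : aeval (Im Q r) E = D := by
    have h8 := congrArg (fun N => N * Rn Q r) h4
    simp only [mul_assoc, r3, mul_one] at h8
    exact h8
  refine ⟨fun p c => ?_, fun hdom hchar P p c => ?_⟩
  · rw [h7, hD, Matrix.diagonal_apply, sb_prod]
  · have h9 : aeval (Im Q r) (C 2 * trc Q r P) = aeval (Im Q r) ((1 + E) * P) := by
      refine f2 _ _ s1 _ _ fun m hm => ?_
      unfold trc
      rw [eval_mul, eval_mul, eval_C, f1 _ m hm, eval_add, eval_one, hE, f1 _ m hm]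
      by_cases hm2 : Even m
      · rw [if_pos hm2, if_pos hm2]
        ring
      · rw [if_neg hm2, if_neg hm2]
        ring
    rw [map_mul, map_mul, map_add, map_one, h7, aeval_C, ← Algebra.smul_def, add_mul, one_mul]
      at h9
    have h10 := congrFun (congrFun h9 p) c
    rw [Matrix.smul_apply, Matrix.add_apply, hD, Matrix.diagonal_mul, sb_prod, smul_eq_mul] at h10
    have h20 : (2 : A) ≠ 0 := two_ne_zero
    by_cases h11 : p.1.par = p.2.par
    · rw [if_pos h11] at h10 ⊢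
      refine mul_left_cancel₀ h20 ?_
      rw [h10]
      ring
    · rw [if_neg h11] at h10 ⊢
      refine mul_left_cancel₀ h20 ?_
      rw [h10]
      ring

end Pool.Agent.UB
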