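import Pool.Agent.UB.Stmts

/-!
Finite type invariants detect the unknot among the arborescent knots (MP_31fd3b_gt, Theorem U):
module PRD (products of data of functors).
-/

open Polynomial
open scoped BigOperators Real Matrix

namespace Pool.Agent.UB

open Pool.Agent.LibH11.Sliced Pool.Agent.MTR Pool.Agent.MT Pool.Agent.MTA Pool.Agent.UA
open Pool.Agent.TB hiding vec

namespace Prd

section Sums

variable {A S S' : Type} [CommRing A] [Fintype S] [Fintype S']

theorem sum1 (F : S → A) (G : S' → A) :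
    ∑ a : S × S', F a.1 * G a.2 = (∑ a, F a) * ∑ a, G a := by
  rw [Fintype.sum_prod_type, Finset.sum_mul_sum]

theorem sum2 (F : S → S → A) (G : S' → S' → A) :
    ∑ a : S × S', ∑ x : S × S', F a.1 x.1 * G a.2 x.2 =
      (∑ a, ∑ x, F a x) * ∑ a, ∑ x, G a x := by
  rw [← sum1]
  refine Finset.sum_congr rfl fun a _ => ?_
  exact sum1 (F a.1) (G a.2)

theorem sum3 (F : S → S → S → A) (G : S' → S' → S' → A) :
    ∑ a : S × S', ∑ b : S × S', ∑ x : S × S', F a.1 b.1 x.1 * G a.2 b.2 x.2 =
      (∑ a, ∑ b, ∑ x, F a b x) * ∑ a, ∑ b, ∑ x, G a b x := by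
  rw [← sum1]
  refine Finset.sum_congr rfl fun a _ => ?_
  exact sum2 (F a.1) (G a.2)

end Sums

section Pm

variable {A S S' : Type} [CommRing A] [Fintype S] [DecidableEq S] [Fintype S'] [DecidableEq S']

/-- the product of two matrices -/
def pm (M : Matrix (S × S) (S × S) A) (M' : Matrix (S' × S') (S' × S') A) :
    Matrix ((S × S') × (S × S')) ((S × S') × (S × S')) A :=
  fun p c => M (p.1.1, p.2.1) (c.1.1, c.2.1) * M' (p.1.2, p.2.2) (c.1.2, c.2.2)

omit [Fintype S] [Fintype S'] in
theorem pm_one : pm (1 : Matrix (S × S) (S × S) A) (1 : Matrix (S' × S') (S' × S') A) = 1 := by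
  funext p c
  obtain ⟨⟨x, x'⟩, ⟨y, y'⟩⟩ := p
  obtain ⟨⟨a, a'⟩, ⟨b, b'⟩⟩ := c
  simp only [pm, Matrix.one_apply, Prod.mk.injEq]
  by_cases h1 : x = a <;> by_cases h2 : y = b <;> by_cases h3 : x' = a' <;>
    by_cases h4 : y' = b' <;> simp [h1, h2, h3, h4]

omit [DecidableEq S] [DecidableEq S'] in
theorem pm_mul (M N : Matrix (S × S) (S × S) A) (M' N' : Matrix (S' × S') (S' × S') A) :
    pm (M * N) (M' * N') = pm M M' * pm N N' := by
  funext p c
  rw [Matrix.mul_apply, Fintype.sum_prod_type]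
  simp only [pm]
  rw [Matrix.mul_apply, Matrix.mul_apply, Fintype.sum_prod_type, Fintype.sum_prod_type, ← sum2]
  refine Finset.sum_congr rfl fun a _ => Finset.sum_congr rfl fun b _ => ?_
  ring

theorem pm_pow (M : Matrix (S × S) (S × S) A) (M' : Matrix (S' × S') (S' × S') A) (k : ℕ) :
    pm (M ^ k) (M' ^ k) = pm M M' ^ k := by
  induction k with
  | zero => rw [pow_zero, pow_zero, pow_zero, pm_one]
  | succ k ih => rw [pow_succ, pow_succ, pow_succ, pm_mul, ih]

variable (T : TData A S) (T' : TData A S')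

omit [DecidableEq S] [DecidableEq S'] in
theorem pm_rot (M : Matrix (S × S) (S × S) A) (M' : Matrix (S' × S') (S' × S') A) :
    rot (tprod T T') (pm M M') = pm (rot T M) (rot T' M') := by
  funext p c
  simp only [rot, pm, tprod]
  rw [← sum2]
  refine Finset.sum_congr rfl fun a _ => Finset.sum_congr rfl fun x _ => ?_
  ring

theorem pm_mt (t : Tr) : mt (tprod T T') t = pm (mt T t) (mt T' t) := by
  induction t with
  | pw e => exact (pm_pow (sg T (decide (0 < e))) (sg T' (decide (0 < e))) e.natAbs).symm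
  | cons a b iha ihb =>
    simp only [mt]
    rw [iha, ihb, pm_rot, pm_mul]

omit [DecidableEq S] [DecidableEq S'] in
theorem pm_clo (M : Matrix (S × S) (S × S) A) (M' : Matrix (S' × S') (S' × S') A) (s : S)
    (s' : S') : clo (tprod T T') (pm M M') (s, s') = clo T M s * clo T' M' s' := by
  simp only [clo, pm, tprod]
  rw [← sum3]
  refine Finset.sum_congr rfl fun a _ => Finset.sum_congr rfl fun b _ =>
    Finset.sum_congr rfl fun x _ => ?_
  ring

end Pm

section Data

variable {A : Type} [CommRing A] (Q : QP A) (r : ℕ)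

theorem th1 : (((Q.fu r)⁻¹ : Aˣ) : A) * ((tht Q r : Aˣ) : A) =
    ((Q.fu r * (Q.s ^ r)⁻¹ : Aˣ) : A) := by
  rw [← Units.val_mul]
  congr 1
  unfold tht
  group

theorem th2 : ((Q.fu r : Aˣ) : A) * (((tht Q r)⁻¹ : Aˣ) : A) =
    (((Q.fu r)⁻¹ * Q.s ^ r : Aˣ) : A) := by
  rw [← Units.val_mul]
  congr 1
  unfold tht
  rw [mul_inv, inv_inv, pow_two, mul_inv]
  rw [← mul_assoc, ← mul_assoc, mul_inv_cancel, one_mul]

theorem tdata_eq : tdata Q r = tprod (ld Q r) (od (tht Q r)) := by
  unfold tdata tprod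
  congr 1
  · funext e x y a b
    cases e
    · simp only [ld, od]
      by_cases h : x.2 = b.2 ∧ y.2 = a.2
      · rw [if_pos h, if_pos h]
        by_cases h2 : a.2 = b.2
        · rw [if_pos h2, if_pos h2, ← th2]
          simp only [Bool.false_eq_true, if_false]
          ring
        · rw [if_neg h2, if_neg h2, mul_one]
      · rw [if_neg h, if_neg h, mul_zero]
    · simp only [ld, od]
      by_cases h : x.2 = b.2 ∧ y.2 = a.2
      · rw [if_pos h, if_pos h]
        by_cases h2 : a.2 = b.2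
        · rw [if_pos h2, if_pos h2, ← th1]
          simp only [if_true]
          ring
        · rw [if_neg h2, if_neg h2, mul_one]
      · rw [if_neg h, if_neg h, mul_zero]
  · funext x y
    simp only [ld, od]
    by_cases h : x.2 ≠ y.2
    · rw [if_pos h, if_pos h, mul_one]
    · rw [if_neg h, if_neg h, mul_zero]
  · funext x y
    simp only [ld, od]
    by_cases h : x.2 ≠ y.2
    · rw [if_pos h, if_pos h, mul_one]
    · rw [if_neg h, if_neg h, mul_zero]

end Data

end Prd

theorem t_PRD : PRD_Stmt := by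
  refine ⟨?_, ?_⟩
  · intro A S S' _ _ _ _ _ T T' s s' t
    rw [Prd.pm_mt, Prd.pm_clo]
  · intro A _ Q r
    exact Prd.tdata_eq Q r

end Pool.Agent.UB
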