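import Pool.Agent.UB.Stmts
import Pool.Agent.MT.Tt
import Pool.Agent.MT.Prt

/-!
Theorem U (MP_31fd3b_gt), half-spin part: module ROTL (rotation on the labels).
-/

open Polynomial
open scoped BigOperators Real Matrix

namespace Pool.Agent.UB

open Pool.Agent.LibH11.Sliced Pool.Agent.MTR Pool.Agent.MT Pool.Agent.MTA Pool.Agent.UA
open Pool.Agent.TB hiding vec

namespace ROTL

variable {A : Type} [CommRing A] (Q : QP A) (r : ℕ)

/-- the word of the rotated tangle -/
noncomputable def Q0 (P : A[X]) : A[X] :=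
  wop Q.two (Q.lam r) (Q.lam (r - 1)) false [P, Q.basis r r]

theorem star (he : EMB_Stmt) [IsDomain A] (hd : DLB_Stmt) (hw : WOP_Stmt) (hG : Q.Gen r)
    (hR : Q.Reg r) (P : A[X]) (c y0 y1 a : Lb r) :
    ∑ x, ∑ z, (aeval (Im Q r) P) (y1, a) (x, z) *
        (cupv Q r y0 x * ∑ b, capv Q r c b * cupv Q r b z) =
      dlt Q r * ∑ v, (aeval (Im Q r) (Q0 Q r P)) (y0, y1) (c, v) * cupv Q r v a := by
  set φ : Lb r → A := fun t => if t = c then 1 else 0 with hφ
  obtain ⟨-, -, -, -, e5⟩ := he A (Lb r)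
  have h1 := hw A Q r hG hR φ [P, Q.basis r r]
  have h2 : Wv Q r (Omf Q r φ) false [P, Q.basis r r] =
      aeval (emb23 (Im Q r)) P *ᵥ (aeval (emb12 (Im Q r)) (Q.basis r r) *ᵥ Omf Q r φ) := rfl
  rw [h2, (e5 (Im Q r) P).2, (e5 (Im Q r) (Q.basis r r)).1,
    (e5 (Im Q r) (wop Q.two (Q.lam r) (Q.lam (r - 1)) false [P, Q.basis r r])).1] at h1
  have h3 := congrFun h1 (y0, y1, a)
  rw [VAL.emb23_mulVec, VAL.emb12_mulVec] at h3
  have h4 : ∀ x z : Lb r, dlt Q r * (emb12 (aeval (Im Q r) (Q.basis r r)) *ᵥ Omf Q r φ)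
      (y0, x, z) = cupv Q r y0 x * ∑ b, capv Q r c b * cupv Q r b z := by
    intro x z
    rw [VAL.emb12_mulVec, Finset.sum_eq_single c]
    · rw [Finset.mul_sum, Finset.mul_sum]
      refine Finset.sum_congr rfl fun b _ => ?_
      have h5 := (hd A Q r hG hR).2 (y0, x) (c, b)
      simp only at h5
      rw [← mul_assoc, h5]
      simp only [Omf, hφ, if_true]
      ring
    · intro s _ hs
      refine Finset.sum_eq_zero fun t _ => ?_
      simp [Omf, hφ, hs]
    · intro h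
      exact (h (Finset.mem_univ _)).elim
  have h6 : ∑ v, (aeval (Im Q r) (Q0 Q r P)) (y0, y1) (c, v) * cupv Q r v a =
      ∑ a', ∑ b', (aeval (Im Q r) (wop Q.two (Q.lam r) (Q.lam (r - 1)) false
        [P, Q.basis r r])) (y0, y1) (a', b') * Omf Q r φ (a', b', a) := by
    symm
    rw [Finset.sum_eq_single c]
    · refine Finset.sum_congr rfl fun b _ => ?_
      simp [Omf, hφ, Q0]
    · intro s _ hs
      refine Finset.sum_eq_zero fun t _ => ?_
      simp [Omf, hφ, hs]
    · intro h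
      exact (h (Finset.mem_univ _)).elim
  rw [h6, ← h3, Finset.mul_sum]
  refine Finset.sum_congr rfl fun x _ => ?_
  rw [Finset.mul_sum]
  refine Finset.sum_congr rfl fun z _ => ?_
  rw [← h4]
  ring

/-- the equation for even labels -/
theorem rot_eq (he : EMB_Stmt) (hc : CUP_Stmt) [IsDomain A] (hd : DLB_Stmt) (hw : WOP_Stmt)
    (hr : Even r) (hG : Q.Gen r) (hR : Q.Reg r) (P : A[X]) (p c : Ev r × Ev r) :
    rot (ld Q r) (rs r (aeval (Im Q r) P)) p c =
      dlt Q r * (aeval (Im Q r) (Q0 Q r P)) (p.1.1, p.2.1) (c.1.1, c.2.1) := by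
  obtain ⟨y0, y1⟩ := p
  obtain ⟨c, b⟩ := c
  have c1 := (hc A Q r hr).1
  have c4 := (hc A Q r hr).2.2.2.1
  have c5 := (hc A Q r hr).2.2.2.2
  -- the equation (*) with `c` even
  have h1 : ∀ a : Lb r, ∑ x, (aeval (Im Q r) P) (y1.1, a) (x, c.1) * cupv Q r y0.1 x =
      dlt Q r * ∑ v, (aeval (Im Q r) (Q0 Q r P)) (y0.1, y1.1) (c.1, v) * cupv Q r v a := by
    intro a
    rw [← star Q r he hd hw hG hR P c.1 y0.1 y1.1 a]
    refine Finset.sum_congr rfl fun x _ => ?_
    rw [Finset.sum_eq_single c.1]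
    · rw [c4 c.1 c.1 c.2, if_pos rfl, mul_one]
    · intro z _ hz
      rw [c4 c.1 z c.2, if_neg hz, mul_zero, mul_zero]
    · intro h
      exact (h (Finset.mem_univ _)).elim
  have h2 : ∀ a : Ev r, ∑ x : Ev r, capv Q r a.1 b.1 *
      (aeval (Im Q r) P) (y1.1, a.1) (x.1, c.1) * cupv Q r y0.1 x.1 =
      capv Q r a.1 b.1 * (dlt Q r *
        ∑ v, (aeval (Im Q r) (Q0 Q r P)) (y0.1, y1.1) (c.1, v) * cupv Q r v a.1) := by
    intro a
    rw [← h1 a.1, Finset.mul_sum]
    rw [VAL.sum_Ev r (fun x => capv Q r a.1 b.1 *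
      (aeval (Im Q r) P) (y1.1, a.1) (x, c.1) * cupv Q r y0.1 x)]
    · refine Finset.sum_congr rfl fun x _ => ?_
      ring
    · intro x hx
      rw [(c1 y0.1 x (fun h => by rw [h, c5, y0.2] at hx; exact Bool.noConfusion hx)).1, mul_zero]
  have h3 : rot (ld Q r) (rs r (aeval (Im Q r) P)) (y0, y1) (c, b) =
      ∑ a : Ev r, ∑ x : Ev r, capv Q r a.1 b.1 *
      (aeval (Im Q r) P) (y1.1, a.1) (x.1, c.1) * cupv Q r y0.1 x.1 := rfl
  rw [h3]
  simp only [h2]
  have h4 : ∑ a : Ev r, capv Q r a.1 b.1 * (dlt Q r *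
        ∑ v, (aeval (Im Q r) (Q0 Q r P)) (y0.1, y1.1) (c.1, v) * cupv Q r v a.1) =
      dlt Q r * ∑ v, (aeval (Im Q r) (Q0 Q r P)) (y0.1, y1.1) (c.1, v) *
        ∑ a : Ev r, cupv Q r v a.1 * capv Q r a.1 b.1 := by
    simp only [Finset.mul_sum]
    rw [Finset.sum_comm]
    refine Finset.sum_congr rfl fun v _ => Finset.sum_congr rfl fun a _ => ?_
    ring
  rw [h4]
  congr 1
  simp only [TT.cupcap Q r hc hr _ b.1 b.2, mul_ite, mul_one, mul_zero, Finset.sum_ite_eq',
    Finset.mem_univ, if_true]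

end ROTL

open ROTL in
theorem t_ROTL (h1 : PAR_Stmt) (he : EMB_Stmt) (hs : SPEC_Stmt) (hf : FC_Stmt) (hc : CUP_Stmt)
    (hd : DLB_Stmt) (hw : WOP_Stmt) (h3 : PRT_Stmt) (_hl : CLC_Stmt) : ROTL_Stmt := by
  intro A _ _ _ Q r hr hG hR P hP
  obtain ⟨-, par⟩ := h1 A Q r hG
  have par' := par inferInstance inferInstance
  obtain ⟨f1, f2⟩ := hf A Q r hG
  have hpol := (hs A Q r hG).1
  have hprt := (h3 A Q r hr hG hR).2.2.2.1
  have hrP : rotP Q r P = trc Q r (C (dlt Q r) * Q0 Q r P) := rfl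
  have hCQ : ∀ p c : Lb r × Lb r, (aeval (Im Q r) (C (dlt Q r) * Q0 Q r P)) p c =
      dlt Q r * (aeval (Im Q r) (Q0 Q r P)) p c := by
    intro p c
    rw [map_mul, aeval_C, ← Algebra.smul_def, Matrix.smul_apply, smul_eq_mul]
  refine ⟨?_, ?_, ?_⟩
  · funext p c
    rw [rot_eq Q r he hc hd hw hr hG hR P p c, hrP]
    show _ = (aeval (Im Q r) (trc Q r (C (dlt Q r) * Q0 Q r P))) (p.1.1, p.2.1) (c.1.1, c.2.1)
    rw [par', if_pos (p.1.2.trans p.2.2.symm), hCQ]
  · intro m hm hodd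
    rw [hrP]
    unfold trc
    rw [f1 _ m hm, if_neg hodd]
  · intro p c hp1 hp2 hcc
    rw [hrP, par', if_pos (hp1.trans hp2.symm), hCQ]
    by_cases hx : xor p.1.par p.2.par = xor c.1.par c.2.par
    · -- both labels are odd
      have hc1 : c.1.par = true ∧ c.2.par = true := by
        rw [hp1, hp2] at hx
        revert hx hcc
        generalize c.1.par = b1
        generalize c.2.par = b2
        cases b1 <;> cases b2 <;> simp
      obtain ⟨y0, y1⟩ := p
      obtain ⟨c, v⟩ := c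
      have hst := star Q r he hd hw hG hR P c y0 y1 v.compl
      have hPt : aeval (Im Q r) P = aeval (Im Q r) (trc Q r P) := by
        refine f2 _ _ hpol _ _ fun m hm => ?_
        unfold trc
        rw [f1 _ m hm]
        by_cases hev : Even m
        · rw [if_pos hev]
        · rw [if_neg hev]
          exact hP.odd m hm hev
      have hz : ∀ x z : Lb r, (aeval (Im Q r) P) (y1, v.compl) (x, z) = 0 := by
        intro x z
        rw [hPt, par', if_neg]
        show y1.par ≠ v.compl.par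
        rw [(hc A Q r hr).2.2.2.2 v]
        intro h
        have h5 : y1.par = false := hp2
        have h6 : v.par = true := hc1.2
        rw [h5, h6] at h
        exact Bool.noConfusion h
      have hlhs : ∑ x, ∑ z, (aeval (Im Q r) P) (y1, v.compl) (x, z) *
          (cupv Q r y0 x * ∑ b, capv Q r c b * cupv Q r b z) = 0 :=
        Finset.sum_eq_zero fun x _ => Finset.sum_eq_zero fun z _ => by rw [hz, zero_mul]
      rw [hlhs, Finset.sum_eq_single v] at hst
      · rw [← mul_assoc] at hst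
        exact ((PRT.cup_unit Q r v).mul_left_eq_zero).1 hst.symm
      · intro v' _ hv'
        rw [((hc A Q r hr).1 v' v.compl (fun h => hv' (PRT.compl_inj h).symm)).1, mul_zero]
      · intro h
        exact (h (Finset.mem_univ _)).elim
    · rw [hprt _ p c hx, mul_zero]

end Pool.Agent.UB
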