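import Pool.Agent.UB.Stmts
import Pool.Agent.MT.Tmc
import Pool.Agent.TB.Unv
import Pool.Agent.TB.Fc

/-!
ROTM: rotation in the model at a root of unity.
-/

open Polynomial
open scoped BigOperators Real

namespace Pool.Agent.UB

open Pool.Agent.LibH11.Sliced Pool.Agent.MTR Pool.Agent.MT Pool.Agent.MTA Pool.Agent.UA
open Pool.Agent.TB hiding vec

namespace ROTMX

open TOR

section

variable {n : ℕ} [NeZero n]

/-- The function `δ_0`. -/
noncomputable def d0 (n : ℕ) : Fn n := fun u => if u = 0 then 1 else 0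

theorem cono_d0 (ι : ℤ) (g : Fn n) : cono n ι g (d0 n) = Fh n ι g := by
  funext u
  show (1 / (2 * n : ℂ)) * ∑ k, ∑ v, g k * zt n ι (k * (u - v)) * d0 n v =
    (1 / (2 * n : ℂ)) * ∑ k, g k * zt n ι (k * u)
  congr 1
  refine Finset.sum_congr rfl fun k _ => ?_
  rw [Finset.sum_eq_single (0 : ZMod (2 * n))]
  · rw [sub_zero, d0, if_pos rfl, mul_one]
  · intro v _ hv
    rw [d0, if_neg hv, mul_zero]
  · intro h
    exact absurd (Finset.mem_univ _) h

theorem sum_Tt_d0 (hz : ZT_Stmt) (ι : ℤ) (hι : IsCoprime ι (2 * n : ℤ)) (a b : ℤ)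
    (k u : ZMod (2 * n)) :
    ∑ v, zt n ι (k * (u - v)) * Tt n ι a b (d0 n) v =
      zt n ι (k * u) * zt n ι (2 * b * ((-a : ℤ) : ZMod (2 * n)) + 2 * b * k) := by
  obtain ⟨_, hadd, _⟩ := hz n ι hι
  have h1 : ∀ v, Tt n ι a b (d0 n) v =
      zt n ι (2 * a * b + 2 * a * v) * (if v + 2 * b = 0 then 1 else 0) := fun v => rfl
  rw [Finset.sum_eq_single (-(2 * (b : ZMod (2 * n))))]
  · rw [h1, if_pos (by ring), mul_one, ← hadd, ← hadd]
    congr 1
    push_cast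
    ring
  · intro v _ hv
    rw [h1, if_neg (fun h => hv (eq_neg_of_add_eq_zero_left h)), mul_zero, mul_zero]
  · intro h
    exact absurd (Finset.mem_univ _) h

theorem Th_one (ι : ℤ) (k : ZMod (2 * n)) :
    Th n ι 1 k = -((n : ℂ) * ∑ a ∈ Finset.range n, ∑ b ∈ Finset.range n,
      saw n (a : ℤ) * saw n (b : ℤ) *
        zt n ι (2 * ((b : ℤ) : ZMod (2 * n)) * ((-(a : ℤ) : ℤ) : ZMod (2 * n)) +
          2 * ((b : ℤ) : ZMod (2 * n)) * k)) := by
  rw [THE.Th_apply, ← mul_neg, Finset.sum_comm]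
  congr 1
  rw [← Finset.sum_neg_distrib]
  have h4 := THE.sum_neg n (fun a : ℤ => ∑ b ∈ Finset.range n, saw n (b : ℤ) * saw n a *
      zt n ι (2 * ((b : ℤ) : ZMod (2 * n)) * (a : ZMod (2 * n)) +
        2 * ((b : ℤ) : ZMod (2 * n)) * k)) (fun a => by
    show ∑ b ∈ Finset.range n, saw n (b : ℤ) * saw n (a + n) *
      zt n ι (2 * ((b : ℤ) : ZMod (2 * n)) * ((a + n : ℤ) : ZMod (2 * n)) +
        2 * ((b : ℤ) : ZMod (2 * n)) * k) = _
    refine Finset.sum_congr rfl fun b _ => ?_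
    rw [THE.saw_add]
    congr 2
    push_cast
    linear_combination (b : ZMod (2 * n)) * THE.two_n n)
  have h5 : ∀ a b : ℕ, saw n (b : ℤ) * saw n (a : ℤ) * Tt n ι (b : ℤ) (a : ℤ) 1 k =
      saw n (b : ℤ) * saw n (a : ℤ) *
        zt n ι (2 * ((b : ℤ) : ZMod (2 * n)) * ((a : ℤ) : ZMod (2 * n)) +
          2 * ((b : ℤ) : ZMod (2 * n)) * k) := by
    intro a b
    show saw n (b : ℤ) * saw n (a : ℤ) *
      (zt n ι (2 * ((b : ℤ) : ZMod (2 * n)) * ((a : ℤ) : ZMod (2 * n)) +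
          2 * ((b : ℤ) : ZMod (2 * n)) * k) * 1) = _
    rw [mul_one]
  rw [Finset.sum_congr rfl fun a _ => Finset.sum_congr rfl fun b _ => h5 a b, ← h4]
  refine Finset.sum_congr rfl fun a _ => ?_
  rw [← Finset.sum_neg_distrib]
  refine Finset.sum_congr rfl fun b _ => ?_
  rw [THE.saw_neg]
  ring

theorem cono_Th_d0 (hz : ZT_Stmt) (ι : ℤ) (hι : IsCoprime ι (2 * n : ℤ)) (g : Fn n) :
    cono n ι g (Th n ι (d0 n)) = -(Fh n ι (Th n ι 1 * g)) := by
  funext u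
  show (1 / (2 * n : ℂ)) * ∑ k, ∑ v, g k * zt n ι (k * (u - v)) * Th n ι (d0 n) v =
    -((1 / (2 * n : ℂ)) * ∑ k, (Th n ι 1 k * g k) * zt n ι (k * u))
  rw [← mul_neg, ← Finset.sum_neg_distrib]
  congr 1
  refine Finset.sum_congr rfl fun k _ => ?_
  have h1 : ∑ v, g k * zt n ι (k * (u - v)) * Th n ι (d0 n) v =
      g k * ((n : ℂ) * ∑ a ∈ Finset.range n, ∑ b ∈ Finset.range n,
        saw n (a : ℤ) * saw n (b : ℤ) *
          ∑ v, zt n ι (k * (u - v)) * Tt n ι a b (d0 n) v) := by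
    have h2 : ∀ v, g k * zt n ι (k * (u - v)) * Th n ι (d0 n) v =
        g k * ((n : ℂ) * ∑ a ∈ Finset.range n, ∑ b ∈ Finset.range n,
          saw n (a : ℤ) * saw n (b : ℤ) * (zt n ι (k * (u - v)) * Tt n ι a b (d0 n) v)) := by
      intro v
      rw [THE.Th_apply, mul_assoc]
      congr 1
      rw [mul_left_comm, Finset.mul_sum]
      congr 1
      refine Finset.sum_congr rfl fun a _ => ?_
      rw [Finset.mul_sum]
      refine Finset.sum_congr rfl fun b _ => ?_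
      ring
    rw [Finset.sum_congr rfl fun v _ => h2 v, ← Finset.mul_sum, ← Finset.mul_sum,
      Finset.sum_comm]
    congr 2
    refine Finset.sum_congr rfl fun a _ => ?_
    rw [Finset.sum_comm]
    refine Finset.sum_congr rfl fun b _ => ?_
    rw [← Finset.mul_sum]
  rw [h1, Th_one]
  have h3 : ∀ a b : ℕ, saw n (a : ℤ) * saw n (b : ℤ) *
      ∑ v, zt n ι (k * (u - v)) * Tt n ι a b (d0 n) v =
      zt n ι (k * u) * (saw n (a : ℤ) * saw n (b : ℤ) *
        zt n ι (2 * ((b : ℤ) : ZMod (2 * n)) * ((-(a : ℤ) : ℤ) : ZMod (2 * n)) +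
          2 * ((b : ℤ) : ZMod (2 * n)) * k)) := by
    intro a b
    rw [sum_Tt_d0 hz ι hι]
    ring
  rw [Finset.sum_congr rfl fun a _ => Finset.sum_congr rfl fun b _ => h3 a b]
  simp only [← Finset.mul_sum]
  ring

end

end ROTMX

open TOR ROTMX in
theorem t_ROTM (hb : BRK_Stmt) (hz : ZT_Stmt) (hg : GRT_Stmt)
    (hl : LFT_Stmt) (he : EIG_Stmt) (hn : NN_Stmt) (hm : MU_Stmt) (ht : THE_Stmt) :
    ROTM_Stmt := by
  intro n r _ ι hnr hr hι P c f hP u
  obtain ⟨hG, hpm, hmp, hI2v, e1, e2, e3, _, _⟩ :=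
    TMC.model hb hz hg hl he hn hm ht n r ι hnr hr hι
  obtain ⟨_, _, _, hl4, _, _⟩ := hl n ι hι
  obtain ⟨I1, hI1⟩ : ∃ I1, I1 = TMC.I1o n r ι := ⟨_, rfl⟩
  obtain ⟨I2, hI2⟩ : ∃ I2, I2 = TMC.I2o n r ι := ⟨_, rfl⟩
  obtain ⟨Om, hOm⟩ : ∃ Om, Om = TMC.Omo n ι := ⟨_, rfl⟩
  rw [← hI1, ← hI2, ← hOm] at e3
  rw [← hI1, ← hI2, ← hOm] at e2
  rw [← hI1, ← hOm] at e1
  rw [← hI2] at hI2v
  -- words of polynomials
  have hk := UNV.key (QD (sz n ι)).two ((QD (sz n ι)).lam r) ((QD (sz n ι)).lam (r - 1)) I1 I2 Om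
    e1 e2 e3
  have hPu : ∀ (P : (DualNumber ℂ)[X]) (v : ZMod (2 * n) → DualNumber ℂ) (u : ZMod (2 * n)),
      (aeval I2 P v) u = P.eval ((QD (sz n ι)).lam (r - cc n u)) * v u := by
    intro P v u
    induction P using Polynomial.induction_on' with
    | add p q hp hq =>
      rw [map_add, eval_add, add_mul, ← hp, ← hq]
      rfl
    | monomial k a =>
      rw [aeval_monomial, eval_monomial]
      have h1 : ∀ k : ℕ, ((I2 ^ k) v) u = (QD (sz n ι)).lam (r - cc n u) ^ k * v u := by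
        intro k
        induction k with
        | zero => rw [pow_zero, pow_zero, one_mul]; rfl
        | succ k ih =>
          rw [pow_succ', pow_succ', mul_assoc, ← ih]
          exact hI2v _ u
      have h2 : (algebraMap (DualNumber ℂ) (Module.End (DualNumber ℂ)
          (ZMod (2 * n) → DualNumber ℂ)) a * I2 ^ k) v u = a * ((I2 ^ k) v) u := rfl
      rw [h2, h1, mul_assoc]
  have hOmu : ∀ u, Om u = 1 - TrivSqZeroExt.inr (Th n ι 1 u) := by
    intro u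
    rw [hOm]
    show TrivSqZeroExt.inl 1 + TrivSqZeroExt.inr (-(Th n ι 1 u)) = _
    rw [TrivSqZeroExt.inr_neg, ← sub_eq_add_neg, TrivSqZeroExt.inl_one]
  have hX : aeval I1 P (aeval I2 ((QD (sz n ι)).basis r r) Om) =
      UNV.Phi I2 Om (wop (QD (sz n ι)).two ((QD (sz n ι)).lam r) ((QD (sz n ι)).lam (r - 1)) false
        [P, (QD (sz n ι)).basis r r]) := by
    rw [wop, wop, wop, ← UNV.comm_aeval _ _ _ I1 I2 Om hk, UNV.Phi_mul, UNV.Phi_one]
  have h2 : aeval I2 ((QD (sz n ι)).basis r r) Om =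
      (1 - TrivSqZeroExt.inr (Th n ι 1 0) : DualNumber ℂ) • mk n (d0 n) 0 := by
    funext u
    rw [hPu]
    by_cases hu0 : u = 0
    · rw [hu0, cc_zero, sub_zero, hOmu]
      rw [FC.eval_basis_self (QD (sz n ι)) hG (by
        rw [Finset.mem_Icc]
        constructor
        · omega
        · omega)]
      show 1 * (1 - TrivSqZeroExt.inr (Th n ι 1 0)) =
        (1 - TrivSqZeroExt.inr (Th n ι 1 0)) *
          (TrivSqZeroExt.inl (if (0 : ZMod (2 * n)) = 0 then (1 : ℂ) else 0) +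
          TrivSqZeroExt.inr ((0 : Fn n) 0))
      simp
    · have h3 : cc n u ≠ 0 := fun h => hu0 ((TMC.cc_eq_zero u).1 h)
      have h4 := cc_le u
      have h5 := cc_nonneg u
      have h6 : (n : ℤ) = 2 * r := by exact_mod_cast hnr
      rw [FC.eval_basis_ne (QD (sz n ι)) (by
        rw [Finset.mem_Icc]
        constructor <;> linarith) (by omega), zero_mul]
      show (0 : DualNumber ℂ) =
        (1 - TrivSqZeroExt.inr (Th n ι 1 0)) *
          (TrivSqZeroExt.inl (if u = 0 then (1 : ℂ) else 0) +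
          TrivSqZeroExt.inr ((0 : Fn n) u))
      simp [hu0]
  -- the polynomial P
  have hp0 : (fun u => (P.eval ((QD (sz n ι)).lam (r - cc n u))).fst) = c.fst • f.1 := by
    funext u
    rw [hP]
    show (c * (TrivSqZeroExt.inl (f.1 u) + TrivSqZeroExt.inr (f.2 u))).fst = c.fst * f.1 u
    simp
  have hp1 : (fun u => (P.eval ((QD (sz n ι)).lam (r - cc n u))).snd) =
      c.fst • f.2 + c.snd • f.1 := by
    funext u
    rw [hP]
    show (c * (TrivSqZeroExt.inl (f.1 u) + TrivSqZeroExt.inr (f.2 u))).snd =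
      c.fst * f.2 u + c.snd * f.1 u
    simp [DualNumber.snd_mul]
  have h3 : aeval I1 P = lift2 n 1 (-(Th n ι)) * lift2 n (cono n ι (c.fst • f.1))
      (cono n ι (c.fst • f.2 + c.snd • f.1)) * lift2 n 1 (Th n ι) := by
    rw [hI1, TMC.I1o, aeval_conj' _ _ _ hpm _ hmp, hl4]
    simp only [TrivSqZeroExt.inl_fst_add_inr_snd_eq, hp0, hp1]
  have h4 : aeval I1 P (mk n (d0 n) 0) =
      c • mk n (Fh n ι f.1) (Fh n ι f.2 - Th n ι (Fh n ι f.1) - Fh n ι (Th n ι 1 * f.1)) := by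
    rw [h3]
    show lift2 n 1 (-(Th n ι)) (lift2 n (cono n ι (c.fst • f.1))
      (cono n ι (c.fst • f.2 + c.snd • f.1)) (lift2 n 1 (Th n ι) (mk n (d0 n) 0))) = _
    rw [lift2_mk, lift2_mk, lift2_mk, smul_mk]
    have g1 : cono n ι (c.fst • f.1) (d0 n) = c.fst • Fh n ι f.1 := by
      rw [cono_d0, map_smul]
    have g2 : cono n ι (c.fst • f.2 + c.snd • f.1) (d0 n) =
        c.fst • Fh n ι f.2 + c.snd • Fh n ι f.1 := by
      rw [cono_d0, map_add, map_smul, map_smul]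
    have g3 : cono n ι (c.fst • f.1) (Th n ι (d0 n)) = -(c.fst • Fh n ι (Th n ι 1 * f.1)) := by
      rw [cono_Th_d0 hz ι hι, mul_smul_comm, map_smul]
    refine mk_congr ?_ ?_
    · show cono n ι (c.fst • f.1) (d0 n) = _
      rw [g1]
    · show (cono n ι (c.fst • f.1) ((0 : Fn n) + Th n ι (d0 n)) +
        cono n ι (c.fst • f.2 + c.snd • f.1) (d0 n)) +
          -(Th n ι (cono n ι (c.fst • f.1) (d0 n))) = _
      rw [zero_add, g1, g2, g3, map_smul]
      funext u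
      show (-(c.fst * Fh n ι (Th n ι 1 * f.1) u) + (c.fst * Fh n ι f.2 u + c.snd * Fh n ι f.1 u)) +
        -(c.fst * Th n ι (Fh n ι f.1) u) =
        c.fst * (Fh n ι f.2 u - Th n ι (Fh n ι f.1) u - Fh n ι (Th n ι 1 * f.1) u) +
          c.snd * Fh n ι f.1 u
      ring
  have h5 := congrFun hX u
  rw [h2, map_smul, h4] at h5
  have h6 : UNV.Phi I2 Om (wop (QD (sz n ι)).two ((QD (sz n ι)).lam r)
      ((QD (sz n ι)).lam (r - 1)) false [P, (QD (sz n ι)).basis r r]) u =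
      (wop (QD (sz n ι)).two ((QD (sz n ι)).lam r) ((QD (sz n ι)).lam (r - 1)) false
        [P, (QD (sz n ι)).basis r r]).eval ((QD (sz n ι)).lam (r - cc n u)) *
        (1 - TrivSqZeroExt.inr (Th n ι 1 u)) := by
    rw [← hOmu]
    exact hPu _ _ _
  rw [h6] at h5
  obtain ⟨X, hXX⟩ : ∃ X, X = (wop (QD (sz n ι)).two ((QD (sz n ι)).lam r)
    ((QD (sz n ι)).lam (r - 1)) false [P, (QD (sz n ι)).basis r r]).eval
      ((QD (sz n ι)).lam (r - cc n u)) := ⟨_, rfl⟩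
  rw [← hXX] at h5 ⊢
  have h7 : ((1 - TrivSqZeroExt.inr (Th n ι 1 u)) * (1 + TrivSqZeroExt.inr (Th n ι 1 u)) :
      DualNumber ℂ) = 1 := by
    ext
    · simp
    · simp [DualNumber.snd_mul]
  have h8 : ((1 - TrivSqZeroExt.inr (Th n ι 1 0) : DualNumber ℂ) • c •
      mk n (Fh n ι f.1) (Fh n ι f.2 - Th n ι (Fh n ι f.1) - Fh n ι (Th n ι 1 * f.1))) u =
      (1 - TrivSqZeroExt.inr (Th n ι 1 0) : DualNumber ℂ) * (c *
        (TrivSqZeroExt.inl (Fh n ι f.1 u) + TrivSqZeroExt.inr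
          (Fh n ι f.2 u - Th n ι (Fh n ι f.1) u - Fh n ι (Th n ι 1 * f.1) u))) := rfl
  rw [h8] at h5
  have h9 : du n (rotf n ι f) u = (TrivSqZeroExt.inl (Fh n ι f.1 u) + TrivSqZeroExt.inr
          (Fh n ι f.2 u - Th n ι (Fh n ι f.1) u - Fh n ι (Th n ι 1 * f.1) u)) *
        (1 + TrivSqZeroExt.inr (Th n ι 1 u)) := by
    show TrivSqZeroExt.inl (Fh n ι f.1 u) + TrivSqZeroExt.inr
      (Fh n ι f.2 u - Th n ι (Fh n ι f.1) u + Th n ι 1 u * Fh n ι f.1 u -
        Fh n ι (Th n ι 1 * f.1) u) = _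
    ext
    · simp
    · simp [DualNumber.snd_mul]
      ring
  rw [h9]
  calc X = X * ((1 - TrivSqZeroExt.inr (Th n ι 1 u)) * (1 + TrivSqZeroExt.inr (Th n ι 1 u))) := by
        rw [h7, mul_one]
    _ = X * (1 - TrivSqZeroExt.inr (Th n ι 1 u)) * (1 + TrivSqZeroExt.inr (Th n ι 1 u)) := by
        rw [mul_assoc]
    _ = _ := by
        rw [← h5]
        ring

end Pool.Agent.UB
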