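import Pool.Agent.UB.Stmts
import Pool.Agent.MTA.Lamg

/-!
THX: the operator `Θ` between stable functions (helper83).
-/

open Polynomial
open scoped BigOperators Real

namespace Pool.Agent.UB

open Pool.Agent.LibH11.Sliced Pool.Agent.MTR Pool.Agent.MT Pool.Agent.MTA Pool.Agent.UA
open Pool.Agent.TB hiding vec
open Pool.Agent.MTA.LAMG

namespace THX

variable {n : ℕ} [NeZero n] {ι : ℤ}

lemma det_cx (L V : ℤ × ℤ) : det2 (cx L) V = -(addv L V).1 := by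
  simp only [det2, cx, addv]
  ring

theorem first (hz : ZT_Stmt) (hf : FOU_Stmt) (hp : PRS_Stmt) (hn : 1 < n)
    (hι : IsCoprime ι (2 * n : ℤ)) (L V : ℤ × ℤ) (Φ ψ : Fn n) (hΦ : Stab n ι L Φ)
    (hψ : Stab n ι V ψ) (κ : ZMod n) (hκ : κ * ι * ((-(addv L V).1 : ℤ) : ZMod n) = 1) :
    pr n Φ (Th n ι ψ) = -(1 / 4) *
        CC n (cx L) V (1, 0) (0, 1) (fun v => ZMod.stdAddChar (κ * v)) * pr n Φ ψ := by
  obtain ⟨-, -, -, -, -, -, hz2, -⟩ := hz n ι hι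
  obtain ⟨hf1, -, hf3⟩ := hf n hn
  obtain ⟨-, hpr⟩ := hp n ι hι
  obtain ⟨δ, hδ⟩ : ∃ δ : ℤ, (δ : ZMod n) = κ * ι := ⟨((κ * ι : ZMod n)).val, by
    rw [Int.cast_natCast, ZMod.natCast_zmod_val]⟩
  have hκ' : κ * ι * ((det2 (cx L) V : ℤ) : ZMod n) = 1 := by
    rw [det_cx]
    exact hκ
  have hδd : ((δ : ZMod n) * (det2 (cx L) V : ℤ)) = 1 := by
    rw [hδ]
    exact hκ'
  have hΦ' : Stab n ι (-(cx L).1, (cx L).2) Φ := by
    have : (-(cx L).1, (cx L).2) = L := by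
      simp only [cx, neg_neg]
    rw [this]
    exact hΦ
  have hE : ∀ a b : ℤ, pr n Φ (Tt n ι a b ψ) =
      pr n Φ ψ * zt n ι (2 * δ * Nl (cx L) V (a • ((1, 0) : ℤ × ℤ) + b • ((0, 1) : ℤ × ℤ)) : ℤ) := by
    intro a b
    have h1 := hpr (cx L) V Φ ψ hΦ' hψ δ hδd (a, b)
    have h2 : a • ((1, 0) : ℤ × ℤ) + b • ((0, 1) : ℤ × ℤ) = (a, b) := by
      ext <;> simp
    rw [h2]
    exact h1
  rw [← thTermG hz2 hf1 hf3 (cx L) V κ hκ' δ hδ (1, 0) (0, 1) 0 (by simp [det2]), ← prL_apply,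
    Th]
  simp only [LinearMap.smul_apply, LinearMap.sum_apply, map_smul, map_sum, prL_apply, smul_eq_mul,
    hE]
  rw [mul_assoc, Finset.sum_mul]
  congr 1
  refine Finset.sum_congr rfl fun a _ => ?_
  rw [Finset.sum_mul]
  refine Finset.sum_congr rfl fun b _ => ?_
  ring

end THX

/-- **The module.** -/
theorem t_THX (hz : ZT_Stmt) (hf : FOU_Stmt) (hs : STB_Stmt) (hp : PRS_Stmt) (he : EGO_Stmt) :
    THX_Stmt := by
  intro n _ ι hn hι L V Φ ψ hΦ hψ κ hκ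
  refine ⟨THX.first hz hf hp hn hι L V Φ ψ hΦ hψ κ hκ, ?_⟩
  obtain ⟨hs1, -⟩ := hs n ι hι
  obtain ⟨-, -, -, -, -, -, he1⟩ := he n ι hι
  have h1 : Stab n ι (0, 1) (1 : Fn n) := by
    intro b
    simp only [mul_zero, mul_one]
    exact he1 b
  have h2 : addv (addv L V) (0, 1) = addv L V := by
    simp [addv]
  have h3 := THX.first hz hf hp hn hι (addv L V) (0, 1) (Φ * ψ) 1 (hs1 L V Φ ψ hΦ hψ) h1 κ (by
    rw [h2]
    exact hκ)
  have h4 : pr n Φ (Th n ι 1 * ψ) = pr n (Φ * ψ) (Th n ι 1) := by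
    unfold pr
    refine Finset.sum_congr rfl fun w _ => ?_
    simp only [Pi.mul_apply]
    ring
  have h5 : pr n (Φ * ψ) (1 : Fn n) = pr n Φ ψ := by
    unfold pr
    refine Finset.sum_congr rfl fun w _ => ?_
    simp only [Pi.mul_apply, Pi.one_apply, mul_one]
  rw [h4, h3, h5]

end Pool.Agent.UB
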