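import Pool.Agent.UB.Stmts
import Pool.Agent.MT.Tma

/-!
TMU, CVU: the polynomials and the values of the trees in the model.
-/

open Polynomial
open scoped BigOperators

namespace Pool.Agent.UB

open Pool.Agent.LibH11.Sliced Pool.Agent.MTR Pool.Agent.MT Pool.Agent.MTA Pool.Agent.UA
open Pool.Agent.TB hiding vec

namespace TMU

theorem gen (hg : GRT_Stmt) {n r : ℕ} [NeZero n] {ι : ℤ} (hn : n = 2 * r)
    (hι : IsCoprime ι (2 * n : ℤ)) : (QD (sz n ι)).Gen r := by
  have hn0 : n ≠ 0 := NeZero.ne n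
  have hr0 : 0 < r := by omega
  have hcop : IsCoprime ι (4 * r : ℤ) := by
    have : (4 * r : ℤ) = 2 * n := by
      rw [hn]
      push_cast
      ring
    rw [this]
    exact hι
  have h := (hg r ι hr0 hcop).2
  subst hn
  exact h

theorem even_iff {n r : ℕ} [NeZero n] (hr : Even r) (u : ZMod (2 * n)) :
    Even ((r : ℤ) - cc n u) ↔ Even u.val := by
  have : NeZero (2 * n) := ⟨by have := NeZero.ne n; omega⟩
  have h1 : Even (r : ℤ) := by exact_mod_cast hr
  have h2 : Even (cc n u) ↔ Even u.val := by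
    unfold cc
    rw [Int.even_coe_nat, Int.natAbs_even, ZMod.valMinAbs_def_pos]
    split_ifs with h
    · exact Int.even_coe_nat _
    · rw [Int.even_sub, Int.even_coe_nat]
      have h3 : Even ((2 * n : ℕ) : ℤ) := by
        rw [Int.even_coe_nat]
        exact even_two_mul n
      tauto
  rw [Int.even_sub, h2]
  tauto

theorem du_mul {n : ℕ} [NeZero n] (f g : Fn n × Fn n) (u : ZMod (2 * n)) :
    du n (f.1 * g.1, f.2 * g.1 + f.1 * g.2) u = du n f u * du n g u := by
  unfold du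
  ext
  · simp
  · simp
    ring

theorem du_zero {n : ℕ} [NeZero n] {f : Fn n × Fn n} (h1 : Evs n f.1) (h2 : Evs n f.2) (w : ℕ) :
    du n f ((2 * w + 1 : ℕ) : ZMod (2 * n)) = 0 := by
  unfold du
  rw [h1 w, h2 w]
  simp

end TMU

open TMU TMA

theorem t_TMU (h1 : ROTM_Stmt) (h2 : STU_Stmt) (h3 : TMF_Stmt) (hf : FC_Stmt) (hg : GRT_Stmt) :
    TMU_Stmt := by
  intro n r _ ι hn hr hι
  have hGen := gen hg hn hι
  have hn0 : NeZero (2 * n) := ⟨by have := NeZero.ne n; omega⟩
  obtain ⟨h3a, -⟩ := h3 n r ι hn hr hι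
  have h1' := h1 n r ι hn hr hι
  have h2' := h2 n ι hι
  set Q := QD (sz n ι) with hQ
  have hint : ∀ (g : ℤ → DualNumber ℂ) (u : ZMod (2 * n)),
      (Q.interp r g).eval (Q.lam (r - cc n u)) = g (r - cc n u) :=
    fun g u => (hf (DualNumber ℂ) Q r hGen).1 g _ (TMA.mem_Icc hn u)
  intro t
  induction t with
  | pw e =>
    intro u
    change (FPe Q r e).eval _ = _ ^ 0 * _
    rw [pow_zero, one_mul]
    unfold FPe
    rw [hint]
    change (if Even ((r : ℤ) - cc n u) then _ else _) =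
      TrivSqZeroExt.inl (fe n ι e u) + TrivSqZeroExt.inr ((((e : ℂ) / 2) • (bq n * fe n ι e)) u)
    by_cases hu : Even u.val
    · rw [if_pos ((even_iff hr u).2 hu)]
      obtain ⟨w, hw⟩ := hu
      have hw2 : u.val = 2 * w := by omega
      have hu2 : u = ((2 * w : ℕ) : ZMod (2 * n)) := by
        rw [← hw2, ZMod.natCast_zmod_val]
      have hfe : fe n ι e u = zt n ι ((2 * e * (w : ℤ) ^ 2 : ℤ) : ZMod (2 * n)) := by
        unfold fe
        rw [if_pos ⟨w, hw⟩]
        have : u.val / 2 = w := by omega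
        rw [this]
      have h4 := h3a w e
      rw [← hu2] at h4
      rw [h4, Pi.smul_apply, Pi.mul_apply, hfe]
      ext
      · simp
      · simp
        ring
    · rw [if_neg fun h => hu ((even_iff hr u).1 h)]
      have hfe : fe n ι e u = 0 := by
        unfold fe
        rw [if_neg hu]
      rw [Pi.smul_apply, Pi.mul_apply, hfe]
      simp
  | cons a b iha ihb =>
    intro u
    change (tp Q r b * rotP Q r (tp Q r a)).eval _ = _
    rw [eval_mul, ihb u]
    unfold rotP trc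
    rw [hint]
    by_cases hu : Even u.val
    · rw [if_pos ((even_iff hr u).2 hu), eval_mul, eval_C,
        h1' (tp Q r a) _ (sta n ι a) iha u]
      have h5 : du n (sta n ι (.cons a b)) u =
          du n (rotf n ι (sta n ι a)) u * du n (sta n ι b) u := du_mul _ _ u
      rw [h5]
      change _ = _ ^ (nc a + nc b + 1) * _
      ring
    · rw [if_neg fun h => hu ((even_iff hr u).1 h), mul_zero]
      rw [Nat.not_even_iff_odd] at hu
      obtain ⟨w, hw⟩ := hu
      have hu2 : u = ((2 * w + 1 : ℕ) : ZMod (2 * n)) := by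
        rw [← hw, ZMod.natCast_zmod_val]
      rw [hu2, du_zero (h2' (.cons a b)).1 (h2' (.cons a b)).2.1, mul_zero]

theorem t_CVU (h1 : TMU_Stmt) (h2 : STU_Stmt) (h3 : TMC_Stmt) : CVU_Stmt := by
  intro n r _ ι hn hr hι t
  have h1' := h1 n r ι hn hr hι t
  obtain ⟨h2a, h2b, -⟩ := h2 n ι hι t
  rw [h3 n r ι hn hr hι, mul_assoc]
  congr 1
  simp only [h1']
  set c := (dlt (QD (sz n ι)) r * (1 - TrivSqZeroExt.inr (Th n ι 1 0))) ^ nc t with hc
  simp only [mul_assoc]
  rw [← Finset.mul_sum]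
  congr 1
  rw [TMA.sum_split]
  have hodd : ∑ w ∈ Finset.range n, du n (sta n ι t) ((2 * w + 1 : ℕ) : ZMod (2 * n)) *
      (1 - TrivSqZeroExt.inr (Th n ι 1 ((2 * w + 1 : ℕ) : ZMod (2 * n)))) ^ 2 = 0 := by
    refine Finset.sum_eq_zero fun w _ => ?_
    rw [du_zero h2a h2b, zero_mul]
  rw [hodd, add_zero]
  have hterm : ∀ w : ℕ, du n (sta n ι t) ((2 * w : ℕ) : ZMod (2 * n)) *
      (1 - TrivSqZeroExt.inr (Th n ι 1 ((2 * w : ℕ) : ZMod (2 * n)))) ^ 2 =
      TrivSqZeroExt.inl ((1 : Fn n) (2 * w) * (sta n ι t).1 (2 * w)) +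
        TrivSqZeroExt.inr ((1 : Fn n) (2 * w) * (sta n ι t).2 (2 * w) -
          2 * ((1 : Fn n) (2 * w) * (Th n ι 1 * (sta n ι t).1) (2 * w))) := by
    intro w
    have hw : ((2 * w : ℕ) : ZMod (2 * n)) = 2 * (w : ZMod (2 * n)) := by push_cast; ring
    rw [hw]
    unfold du
    ext
    · simp [pow_two]
    · simp [pow_two]
      ring
  simp only [hterm]
  rw [Finset.sum_add_distrib, ← TrivSqZeroExt.inl_sum, ← TrivSqZeroExt.inr_sum,
    Finset.sum_sub_distrib, ← Finset.mul_sum]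
  rfl

end Pool.Agent.UB
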