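import Pool.Agent.UB.Stmts

/-!
UNK: the closure of one half twist is the unknot.
-/

open Polynomial
open scoped BigOperators Real Matrix

namespace Pool.Agent.UB

open Pool.Agent.LibH11.Sliced Pool.Agent.MTR Pool.Agent.MT Pool.Agent.MTA Pool.Agent.UA
open Pool.Agent.TwoBr Pool.Agent.Mont
open Pool.Agent.TB hiding vec

namespace UNK

theorem k0 : IsLongKnot [] := ⟨_, _, rfl⟩

theorem k1 : IsLongKnot [(.cup, 0), (.cap, 1)] := ⟨_, _, rfl⟩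

theorem k2 : IsLongKnot [(.cup, 0), (.crs false, 1), (.cap, 1)] := ⟨_, _, rfl⟩

theorem k3 : IsLongKnot [(.cup, 1), (.crs true, 0), (.cap, 1)] := ⟨_, _, rfl⟩

theorem m1 : MoveIn ⟨_, k1⟩ ⟨_, k0⟩ := ⟨[], _, _, [], .zigzag 0, rfl, rfl⟩

theorem m2 : MoveIn ⟨_, k2⟩ ⟨_, k1⟩ := ⟨[(.cup, 0)], _, _, [], .r1Cap 1 false, rfl, rfl⟩

theorem m3 : MoveIn ⟨_, k2⟩ ⟨_, k3⟩ := ⟨[], _, _, [(.cap, 1)], .slideCup 0 false, rfl, rfl⟩

theorem eq_dg : cl (Tr.pw 1).dg = [(.cup, 1), (.crs true, 0), (.cap, 1)] := rfl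

end UNK

open UNK in
theorem t_UNK (hi : INV_Stmt) (ht : TDG_Stmt) : UNK_Stmt := by
  intro A _ _ Q r hr hg hreg
  have hG := ht A Q r hr hg hreg
  have e1 := hi A _ (tdata Q r) (s0 r) hG _ _ m1
  have e2 := hi A _ (tdata Q r) (s0 r) hG _ _ m2
  have e3 := hi A _ (tdata Q r) (s0 r) hG _ _ m3
  have e0 : (tdata Q r).J (s0 r) [] = 1 := by
    unfold TData.J TData.st
    exact if_pos rfl
  rw [eq_dg, ← e0]
  exact e3.symm.trans (e2.trans e1)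

end Pool.Agent.UB
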