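import Pool.Agent.MT.Fin
import Pool.Agent.MTA.Mnz
import Pool.Agent.MTA.Stb
import Pool.Agent.MTA.Prs
import Pool.Agent.MTA.Mtd
import Pool.Agent.MTA.Nfe
import Pool.Agent.MTA.Lamb
import Pool.Agent.MTA.Insg
import Pool.Agent.MTR.Chno
import Pool.Agent.MTR.Adv
import Pool.Agent.TB.Ego
import Pool.Agent.TB.Fou
import Pool.Agent.TB.Chn
import Pool.Agent.TB.Jnz
import Pool.Agent.TS.Mul
import Pool.Agent.UB.Act
import Pool.Agent.UB.Prd
import Pool.Agent.UB.Ori
import Pool.Agent.UB.Par
import Pool.Agent.UB.Htl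
import Pool.Agent.UB.Rotl
import Pool.Agent.UB.Labl
import Pool.Agent.UB.Jls
import Pool.Agent.UB.Natu
import Pool.Agent.UB.Unk
import Pool.Agent.UB.Rotm
import Pool.Agent.UB.Stu
import Pool.Agent.UB.Tmu
import Pool.Agent.UB.Intu
import Pool.Agent.UB.Thx
import Pool.Agent.UB.Deru
import Pool.Agent.UB.Lguv
import Pool.Agent.UB.Hs
import Pool.Agent.UC.Fin

/-!
Theorem U, half-spin part: assembly of the blocks A, B, C.
-/

namespace Pool.Agent.UB

open Pool.Agent.LibH11.Sliced Pool.Agent.MTR Pool.Agent.MT Pool.Agent.MTA Pool.Agent.UA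
open Pool.Agent.TB hiding vec

/-- INTU, unconditional. -/
theorem intu_all : INTU_Stmt := by
  have hbrk := brk
  have hemb := emb
  have hrel := rel
  have hspec := spec brk
  have hfc := fc
  have hbrd := brd hbrk hfc
  have htop := top hbrk hspec hfc
  have hrpr := rpr hbrk
  have hcup := cup
  have hsld := sld hemb hrel hspec hfc hbrd htop hrpr hcup
  have htdg := tdg hemb hrel hspec hfc hbrd hrpr hcup hsld
  have hzt := zt_basic
  have hgrt := grt hbrk
  have hlft := lft hzt
  have heig := eig hbrk hzt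
  have hwop := wop_thm hbrk hemb hrel hspec hfc htop
  have hdlb := dlb hbrk hspec hfc htop
  have hclc := clc hbrk hemb hrel hspec hfc htop hcup unv hdlb hwop
  have hprt := prt hbrk hemb hspec hfc hrpr hcup hdlb hwop hclc
  have hotg := otg hbrk
  have htmc := tmc hbrk hfc unv hzt hgrt hlft heig (nn hzt) (mu hzt) the
  have htmp := tmp hbrk hfc unv hzt hgrt hlft heig (nn hzt) (mu hzt) the
  have htmf := tmf hbrk hzt
  have htms := tms hzt
  have htma := tma hfc hgrt htmc htmp htmf htms
  have hego := ego hzt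
  have hjnz := jnz hzt chn
  have had := adv chno
  have hins := insg_thm hego
  have hstb := stb hzt hego hins
  have hprs := prs hzt hego
  have hmnz := mnz hzt hego hjnz chn had nfe mtd hstb hprs htms
  -- labels
  have hpar := t_PAR hbrk hemb hspec hfc hrpr
  have hhtl := t_HTL hpar hbrk hemb hspec hfc hrpr
  have hrotl := t_ROTL hpar hemb hspec hfc hcup hdlb hwop hprt hclc
  have hlabl := t_LABL hpar hhtl hrotl hemb hspec hfc hcup hclc
  have hjls := t_JLS t_ACT t_PRD t_ORI hlabl TS.mul
  have htrf := t_TRF t_NATU hotg hclc (gps hbrk)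
  have hunk := t_UNK inv htdg
  -- model
  have hrotm := t_ROTM hbrk hzt hgrt hlft heig (nn hzt) (mu hzt) the
  have hfht := t_FHT hzt
  have hstu := t_STU hfht hstb
  have htmu := t_TMU hrotm hstu htmf hfc hgrt
  have hcvu := t_CVU htmu hstu htmc
  exact t_INTU hjls htrf hunk hcvu htma (ftm inv fti) htdg hz (gps hbrk) hgrt hmnz mtd

/-- LGUV, unconditional. -/
theorem lguv_all : LGUV_Stmt := by
  have hzt := zt_basic
  have hego := ego hzt
  have hins := insg_thm hego
  have hstb := stb hzt hego hins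
  have hprs := prs hzt hego
  have hfht := t_FHT hzt
  have hstu := t_STU hfht hstb
  have hthx := t_THX hzt fou hstb hprs hego
  have hderu := t_DERU hfht hstu hthx (lamb hzt fou hego hprs) hstb
  exact t_LGUV hderu hthx hstu hego

/-- HS, unconditional. -/
theorem hs_all : HS_Stmt := t_HS intu_all lguv_all UC.cfin

end Pool.Agent.UB
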