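import Pool.Agent.UA.Defs
import Pool.Agent.MTA.Defs2

/-!
Finite type invariants detect the unknot among the arborescent knots (MP_31fd3b_gt, Theorem U):
the half-spin part, definitions. See PAPER.md in this folder.
-/

open Polynomial
open scoped BigOperators Real

namespace Pool.Agent.UB

open Pool.Agent.LibH11.Sliced Pool.Agent.MTR Pool.Agent.MT Pool.Agent.MTA Pool.Agent.UA
open Pool.Agent.TB hiding vec

/-! ### 1. Matrices of trees -/

section Act

variable {A S : Type} [CommRing A] [Fintype S] [DecidableEq S] (T : TData A S)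

/-- the matrix of a crossing (row: output, column: input) -/
def sg (e : Bool) : Matrix (S × S) (S × S) A := fun p c => T.R e p.1 p.2 c.1 c.2

/-- the matrix of the rotated tangle -/
def rot (M : Matrix (S × S) (S × S) A) : Matrix (S × S) (S × S) A :=
  fun p c => ∑ a, ∑ x, T.cap a c.2 * M (p.2, a) (x, c.1) * T.cup p.1 x

/-- the matrix of a tree -/
def mt : Tr → Matrix (S × S) (S × S) A
  | .pw e => sg T (decide (0 < e)) ^ e.natAbs
  | .cons a b => mt b * rot T (mt a)

/-- the value of the closure -/
def clo (M : Matrix (S × S) (S × S) A) (s0 : S) : A :=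
  ∑ a, ∑ b, ∑ x, T.cap a b * M (s0, a) (s0, x) * T.cup x b

end Act

section Prod

variable {A S S' : Type} [CommRing A]

/-- the product of two data -/
def tprod (T : TData A S) (T' : TData A S') : TData A (S × S') where
  R := fun e x y a b => T.R e x.1 y.1 a.1 b.1 * T'.R e x.2 y.2 a.2 b.2
  cup := fun x y => T.cup x.1 y.1 * T'.cup x.2 y.2
  cap := fun x y => T.cap x.1 y.1 * T'.cap x.2 y.2

/-- the orientations: `t` for a positive crossing of parallel strands -/
def od (t : Aˣ) : TData A Bool where
  R := fun e x y a b =>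
    if x = b ∧ y = a then
      (if a = b then (if e then (t : A) else ((t⁻¹ : Aˣ) : A)) else 1)
    else 0
  cup := fun x y => if x ≠ y then 1 else 0
  cap := fun x y => if x ≠ y then 1 else 0

/-- the labels -/
def ld (Q : QP A) (r : ℕ) : TData A (Ev r) where
  R := fun e x y a b =>
    match e with
    | true => (((Q.fu r)⁻¹ : Aˣ) : A) * Rm Q r (x.1, y.1) (a.1, b.1)
    | false => ((Q.fu r : Aˣ) : A) * Rn Q r (x.1, y.1) (a.1, b.1)
  cup := fun x y => cupv Q r x.1 y.1
  cap := fun x y => capv Q r x.1 y.1

end Prod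

/-! ### 2. Universal values -/

section Universal

variable {A : Type} [CommRing A] (Q : QP A) (r : ℕ)

/-- the polynomial of `e` half twists, restricted to the even eigenvalues -/
noncomputable def FPe (e : ℤ) : A[X] :=
  Q.interp r fun m => if Even m then ((Fu Q r m ^ e : Aˣ) : A) else 0

/-- the part of a polynomial on the even eigenvalues -/
noncomputable def trc (P : A[X]) : A[X] :=
  Q.interp r fun m => if Even m then P.eval (Q.lam m) else 0

/-- the polynomial of the rotated tangle -/
noncomputable def rotP (P : A[X]) : A[X] :=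
  trc Q r (C (dlt Q r) * wop Q.two (Q.lam r) (Q.lam (r - 1)) false [P, Q.basis r r])

/-- the polynomial of a tree -/
noncomputable def tp : Tr → A[X]
  | .pw e => FPe Q r e
  | .cons a b => tp b * rotP Q r (tp a)

/-- The polynomial vanishes at the odd eigenvalues, and `P(Im)` has no entries from labels which
are not both even to even labels. -/
structure Okp (P : A[X]) : Prop where
  odd : ∀ m ∈ Finset.Icc (-(r : ℤ)) r, ¬ Even m → P.eval (Q.lam m) = 0
  even : ∀ p c : Lb r × Lb r, p.1.par = false → p.2.par = false →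
    (c.1.par ≠ false ∨ c.2.par ≠ false) → (aeval (Im Q r) P) p c = 0

/-- restriction of a matrix to the even labels -/
def rs (M : Matrix (Lb r × Lb r) (Lb r × Lb r) A) : Matrix (Ev r × Ev r) (Ev r × Ev r) A :=
  fun p c => M (p.1.1, p.2.1) (c.1.1, c.2.1)

end Universal

/-! ### 3. The model at a root of unity -/

/-- number of the inner vertices -/
def nc : Tr → ℕ
  | .pw _ => 0
  | .cons a b => nc a + nc b + 1

/-- sum of the exponents -/
def exs : Tr → ℤ
  | .pw e => e
  | .cons a b => exs a + exs b

section Torus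

variable (n : ℕ) [NeZero n] (ι : ℤ)

/-- the Fourier transform -/
noncomputable def Fh : Module.End ℂ (Fn n) where
  toFun f := fun u => (1 / (2 * n : ℂ)) * ∑ k, f k * zt n ι (k * u)
  map_add' f g := by
    funext u
    simp only [Pi.add_apply, add_mul, Finset.sum_add_distrib, mul_add]
  map_smul' c f := by
    funext u
    simp only [Pi.smul_apply, smul_eq_mul, RingHom.id_apply, Finset.mul_sum]
    refine Finset.sum_congr rfl fun k _ => ?_
    ring

/-- rotation of a state over the dual numbers (value, coefficient of `η`) -/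
noncomputable def rotf (f : Fn n × Fn n) : Fn n × Fn n :=
  (Fh n ι f.1, Fh n ι f.2 - Th n ι (Fh n ι f.1) + Th n ι 1 * Fh n ι f.1 - Fh n ι (Th n ι 1 * f.1))

/-- the state of a tree over the dual numbers: value and coefficient of `η` -/
noncomputable def sta : Tr → Fn n × Fn n
  | .pw e => (fe n ι e, ((e : ℂ) / 2) • (bq n * fe n ι e))
  | .cons a b =>
      ((rotf n ι (sta a)).1 * (sta b).1,
        (rotf n ι (sta a)).2 * (sta b).1 + (rotf n ι (sta a)).1 * (sta b).2)

/-- the value of the closure over the dual numbers, up to a constant -/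
noncomputable def Va (T : Tr) : ℂ × ℂ :=
  (pr n 1 (sta n ι T).1, pr n 1 (sta n ι T).2 - 2 * pr n 1 (Th n ι 1 * (sta n ι T).1))

/-- the function vanishes on the odd elements of `ℤ/2n` -/
def Evs (f : Fn n) : Prop := ∀ w : ℕ, f ((2 * w + 1 : ℕ) : ZMod (2 * n)) = 0

end Torus

/-! ### 4. The logarithmic derivative -/

/-- change of the sign of the first component -/
def cx (W : ℤ × ℤ) : ℤ × ℤ := (-W.1, W.2)

section Log

variable (n : ℕ) [NeZero n]

/-- The sums of a tree in the context `L`, for a function `χ` on `ℤ/n`. -/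
noncomputable def TU (χ : ZMod n → ℂ) : ℤ × ℤ → Tr → ℂ
  | L, .pw e => ((e : ℂ) / 4) * CS n (-L.2) χ
  | L, .cons a b =>
      (1 / 4) * (CC n (cx (addv L (vec b))) (rv (vec a)) (1, 0) (0, 1) χ -
          CC n (cx (addv L (vec (.cons a b)))) (0, 1) (1, 0) (0, 1) χ +
          CC n (cx (addv (rv (addv L (vec b))) (vec a))) (0, 1) (1, 0) (0, 1) χ) +
        TU χ (rv (addv L (vec b))) a + TU χ (addv L (rv (vec a))) b

/-- The sums of a tree in the trivial context, with the last term. -/
noncomputable def TL (χ : ZMod n → ℂ) (T : Tr) : ℂ :=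
  TU n χ (0, 1) T + (1 / 2) * CC n (cx (vec T)) (0, 1) (1, 0) (0, 1) χ

/-- The logarithmic derivative of the value of a tree. -/
noncomputable def LU (T : Tr) (κ : ZMod n) : ℂ :=
  -((n : ℂ) ^ 2 - 1) / 12 * (exs T : ℂ) + TL n (fun v => ZMod.stdAddChar (κ * v)) T

end Log

/-! ### 5. The limit -/

/-- `b/(bq+a) - a/(aq+b)` -/
noncomputable def r2 (q : ℚ) (a b : ℤ) : ℚ := b / (b * q + a) - a / (a * q + b)

/-- the function of a trivalent vertex with the weights `u, v, w` -/
noncomputable def ph3 (q : ℚ) (D u v w : ℤ) : ℚ :=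
  r2 q (D * (u * v * w)) 1 + r2 q (D * u) (v * w) + r2 q (D * v) (u * w) + r2 q (D * w) (u * v)

/-- the sum over the vertices of the tree in the context `L` -/
noncomputable def phT (q : ℚ) (D : ℤ) : ℤ × ℤ → Tr → ℚ
  | _, .pw _ => 0
  | L, .cons a b => ph3 q D L.2 (vec a).1 (vec b).2 +
      phT q D (rv (addv L (vec b))) a + phT q D (addv L (rv (vec a))) b

end Pool.Agent.UB
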