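import Pool.Agent.UB.Stmts
import Pool.Agent.MT.Ht

/-!
HTL: half twists on the labels.
-/

open Polynomial
open scoped BigOperators Matrix

namespace Pool.Agent.UB

open Pool.Agent.LibH11.Sliced Pool.Agent.MTR Pool.Agent.MT Pool.Agent.MTA Pool.Agent.UA
open Pool.Agent.TB hiding vec

namespace HTL

open Pool.Agent.TB.VAL (Rx cf)

variable {A : Type} [CommRing A] (Q : QP A) (r : ℕ)

/-- No entries from labels which are not both even to even labels. -/
def EE (M : Matrix (Lb r × Lb r) (Lb r × Lb r) A) : Prop :=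
  ∀ p c : Lb r × Lb r, p.1.par = false → p.2.par = false →
    (c.1.par ≠ false ∨ c.2.par ≠ false) → M p c = 0

variable {r}

theorem EE.mul {M N : Matrix (Lb r × Lb r) (Lb r × Lb r) A} (hM : EE r M) (hN : EE r N) :
    EE r (M * N) := by
  intro p c h1 h2 h3
  rw [Matrix.mul_apply]
  refine Finset.sum_eq_zero fun z _ => ?_
  by_cases hz : z.1.par = false ∧ z.2.par = false
  · rw [hN z c hz.1 hz.2 h3, mul_zero]
  · rw [hM p z h1 h2 (by tauto), zero_mul]

theorem EE.one : EE r (1 : Matrix (Lb r × Lb r) (Lb r × Lb r) A) := by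
  intro p c h1 h2 h3
  rw [Matrix.one_apply_ne]
  rintro rfl
  rcases h3 with h3 | h3
  · exact h3 h1
  · exact h3 h2

theorem EE.pow {M : Matrix (Lb r × Lb r) (Lb r × Lb r) A} (hM : EE r M) (n : ℕ) :
    EE r (M ^ n) := by
  induction n with
  | zero => rw [pow_zero]; exact EE.one
  | succ n ih => rw [pow_succ]; exact ih.mul hM

theorem rs_mul {M N : Matrix (Lb r × Lb r) (Lb r × Lb r) A} (hM : EE r M) :
    rs r (M * N) = rs r M * rs r N := by
  funext p c
  rw [Matrix.mul_apply]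
  show (M * N) (p.1.1, p.2.1) (c.1.1, c.2.1) = _
  rw [Matrix.mul_apply]
  symm
  refine Finset.sum_of_injOn (fun z : Ev r × Ev r => ((z.1.1, z.2.1) : Lb r × Lb r)) ?_ ?_ ?_ ?_
  · rintro ⟨⟨a, ha⟩, ⟨b, hb⟩⟩ _ ⟨⟨a', ha'⟩, ⟨b', hb'⟩⟩ _ h
    simp only [Prod.mk.injEq] at h
    obtain ⟨rfl, rfl⟩ := h
    rfl
  · intro z _
    exact Finset.mem_coe.2 (Finset.mem_univ _)
  · intro z _ hz
    have h1 : z.1.par ≠ false ∨ z.2.par ≠ false := by
      by_contra hc
      push Not at hc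
      exact hz ⟨(⟨z.1, hc.1⟩, ⟨z.2, hc.2⟩), Finset.mem_coe.2 (Finset.mem_univ _), rfl⟩
    rw [hM _ z p.1.2 p.2.2 h1, zero_mul]
  · intro z _
    rfl

theorem rs_one : rs r (1 : Matrix (Lb r × Lb r) (Lb r × Lb r) A) = 1 := by
  funext p c
  show (1 : Matrix (Lb r × Lb r) (Lb r × Lb r) A) (p.1.1, p.2.1) (c.1.1, c.2.1) = _
  rw [Matrix.one_apply, Matrix.one_apply]
  refine if_congr ?_ rfl rfl
  constructor
  · intro h
    simp only [Prod.mk.injEq] at h
    exact Prod.ext (Subtype.ext h.1) (Subtype.ext h.2)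
  · rintro rfl
    rfl

theorem rs_pow {M : Matrix (Lb r × Lb r) (Lb r × Lb r) A} (hM : EE r M) (n : ℕ) :
    rs r (M ^ n) = rs r M ^ n := by
  induction n with
  | zero => rw [pow_zero, pow_zero, rs_one]
  | succ n ih => rw [pow_succ, pow_succ, rs_mul (hM.pow n), ih]

variable (r)

theorem ee_R (hp : RPR_Stmt) (e : Bool) : EE r ((cf Q r e : A) • Rx Q r e) := by
  intro p c h1 h2 h3
  rw [Matrix.smul_apply]
  have h4 : Rx Q r e p c = 0 := by
    have h5 : p.1.par ≠ c.2.par ∨ p.2.par ≠ c.1.par := by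
      rcases h3 with h3 | h3
      · right
        rw [h2]
        exact Ne.symm h3
      · left
        rw [h1]
        exact Ne.symm h3
    have h6 := (hp A Q r).2.1 p.1 p.2 c.1 c.2 h5
    cases e
    · exact h6.2
    · exact h6.1
  rw [h4, smul_zero]

theorem fp_im (hs : SPEC_Stmt) (hf : FC_Stmt) (hG : Q.Gen r) (e : ℤ) :
    aeval (Im Q r) (FP Q r e) =
      ((cf Q r (decide (0 < e)) : A) • Rx Q r (decide (0 < e))) ^ e.natAbs := by
  obtain ⟨h1, h2⟩ := hf A Q r hG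
  have h3 := hs A Q r hG
  have hpol : aeval (Im Q r) (Q.pol r) = 0 := h3.1
  by_cases hx : 0 < e
  · rw [decide_eq_true hx]
    have h4 : aeval (Im Q r) ((C ((cf Q r true : A)) *
        (Q.interp r fun m => (Q.fu m : A))) ^ e.natAbs) =
        ((cf Q r true : A) • Rx Q r true) ^ e.natAbs := by
      generalize hc : (cf Q r true : A) = c
      rw [map_pow, map_mul, aeval_C, h3.2.1, ← Algebra.smul_def]
      rfl
    rw [← h4]
    refine h2 _ _ hpol _ _ ?_
    intro m hm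
    rw [FP, h1 _ m hm, eval_pow, eval_mul, eval_C, h1 _ m hm]
    have h5 : Fu Q r m ^ e = (cf Q r true * Q.fu m) ^ e.natAbs := by
      have h6 : Fu Q r m ^ e = Fu Q r m ^ e.natAbs := by
        rw [← zpow_natCast, Int.natAbs_of_nonneg hx.le]
      rw [h6]
      congr 1
      rw [Fu, cf, mul_comm]
    rw [h5]
    push_cast
    rfl
  · rw [decide_eq_false hx]
    have h4 : aeval (Im Q r) ((C ((cf Q r false : A)) *
        (Q.interp r fun m => (((Q.fu m)⁻¹ : Aˣ) : A))) ^ e.natAbs) =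
        ((cf Q r false : A) • Rx Q r false) ^ e.natAbs := by
      generalize hc : (cf Q r false : A) = c
      rw [map_pow, map_mul, aeval_C, h3.2.2, ← Algebra.smul_def]
      rfl
    rw [← h4]
    refine h2 _ _ hpol _ _ ?_
    intro m hm
    rw [FP, h1 _ m hm, eval_pow, eval_mul, eval_C, h1 _ m hm]
    have h5 : Fu Q r m ^ e = (cf Q r false * (Q.fu m)⁻¹) ^ e.natAbs := by
      have h6 : Fu Q r m ^ e = (Fu Q r m)⁻¹ ^ e.natAbs := by
        have h7 : e = -((e.natAbs : ℕ) : ℤ) := by omega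
        conv_lhs => rw [h7]
        rw [zpow_neg, zpow_natCast, inv_pow]
      have h8 : (Fu Q r m)⁻¹ = cf Q r false * (Q.fu m)⁻¹ := by
        rw [Fu, cf, mul_inv, inv_inv, mul_comm]
      rw [h6, h8]
    rw [h5]
    push_cast
    rfl

theorem trc_FP (hf : FC_Stmt) (hG : Q.Gen r) (e : ℤ) : trc Q r (FP Q r e) = FPe Q r e := by
  unfold trc FPe QP.interp
  refine Finset.sum_congr rfl fun m hm => ?_
  have h1 := (hf A Q r hG).1 (fun m => ((Fu Q r m ^ e : Aˣ) : A)) m hm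
  have h2 : (FP Q r e).eval (Q.lam m) = ((Fu Q r m ^ e : Aˣ) : A) := h1
  simp only [h2]

theorem sg_eq (e : Bool) : sg (ld Q r) e = rs r ((cf Q r e : A) • Rx Q r e) := by
  funext p c
  cases e
  · rfl
  · rfl

end HTL

theorem t_HTL (h1 : PAR_Stmt) (_hb : BRK_Stmt) (_he : EMB_Stmt) (hs : SPEC_Stmt) (hf : FC_Stmt)
    (hp : RPR_Stmt) : HTL_Stmt := by
  intro A _ hD hC Q r hG e
  have hee := HTL.ee_R Q r hp (decide (0 < e))
  have hpar := (h1 A Q r hG).2 hD hC (FP Q r e)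
  rw [HTL.trc_FP Q r hf hG] at hpar
  have hfp := HTL.fp_im Q r hs hf hG e
  refine ⟨?_, ?_, ?_⟩
  · show sg (ld Q r) (decide (0 < e)) ^ e.natAbs = _
    rw [HTL.sg_eq, ← HTL.rs_pow hee, ← hfp]
    funext p c
    show _ = (aeval (Im Q r) (FPe Q r e)) (p.1.1, p.2.1) (c.1.1, c.2.1)
    rw [hpar, if_pos (p.1.2.trans p.2.2.symm)]
    rfl
  · intro m hm ho
    rw [FPe, (hf A Q r hG).1 _ m hm, if_neg ho]
  · intro p c hp1 hp2 hc
    rw [hpar, if_pos (hp1.trans hp2.symm), hfp]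
    exact hee.pow _ p c hp1 hp2 hc

end Pool.Agent.UB
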